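import Mathlib

set_option autoImplicit false

namespace Pool.Agent.Lib.MP_675d17_an

open Polynomial Filter Topology

/-- Logarithmic derivative at the boundary point 0 of a polynomial with no zero in the closed
right half plane. -/
theorem re_logDeriv_nonneg (h : ℂ[X]) (hh : ∀ t : ℂ, 0 ≤ t.re → h.eval t ≠ 0) :
    0 ≤ (h.derivative.eval 0 / h.eval 0).re := by
  have h0 : h.eval 0 ≠ 0 := hh 0 (by simp)
  rw [(IsAlgClosed.splits h).eval_derivative_div_eval_of_ne_zero h0]
  have key : ∀ s : Multiset ℂ, (∀ z ∈ s, z.re < 0) →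
      0 ≤ ((s.map (fun z => 1 / (0 - z))).sum).re := by
    intro s
    induction s using Multiset.induction_on with
    | empty => simp
    | cons a s ih =>
      intro hs
      simp only [Multiset.map_cons, Multiset.sum_cons, Complex.add_re]
      have h1 := ih (fun z hz => hs z (Multiset.mem_cons_of_mem hz))
      have h2 : a.re < 0 := hs a (Multiset.mem_cons_self a s)
      have h3 : 0 ≤ (1 / (0 - a)).re := by
        rw [one_div, Complex.inv_re]
        apply div_nonneg
        · simp; linarith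
        · exact Complex.normSq_nonneg _
      linarith
  apply key
  intro z hz
  by_contra hc
  push Not at hc
  have hz' := (mem_roots'.1 hz).2
  exact hh z hc hz'

theorem min_order (h k : ℂ[X]) (h0 ω : ℂ) (m : ℕ) (hm : 1 ≤ m) (h00 : h0 ≠ 0)
    (hk : h = C h0 + X ^ m * k)
    (hmin : ∀ t : ℝ, 0 < t → ‖h0‖ ≤ ‖h.eval ((t : ℂ) * ω)‖) :
    0 ≤ (ω ^ m * k.eval 0 / h0).re := by
  set κ : ℝ → ℂ := fun t => ω ^ m * k.eval ((t : ℂ) * ω) / h0 with hκ
  have hκc : Continuous κ := by
    have : Continuous fun t : ℝ => k.eval ((t : ℂ) * ω) :=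
      k.continuous.comp (by fun_prop)
    exact (continuous_const.mul this).div_const _
  set F : ℝ → ℝ := fun t => 2 * (κ t).re + t ^ m * Complex.normSq (κ t) with hF
  have hFc : Continuous F := by
    have h1 : Continuous fun t => (κ t).re := Complex.continuous_re.comp hκc
    have h2 : Continuous fun t => Complex.normSq (κ t) := Complex.continuous_normSq.comp hκc
    exact (continuous_const.mul h1).add ((continuous_id.pow m).mul h2)
  have hpos : ∀ t : ℝ, 0 < t → 0 ≤ F t := by
    intro t ht
    have e1 : h.eval ((t : ℂ) * ω) = h0 * (1 + (t : ℂ) ^ m * κ t) := by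
      rw [hk]
      simp only [eval_add, eval_C, eval_mul, eval_pow, eval_X, hκ]
      field_simp
      ring
    have h1 := hmin t ht
    rw [e1, norm_mul] at h1
    have hn : 0 < ‖h0‖ := norm_pos_iff.2 h00
    have h2 : 1 ≤ ‖1 + (t : ℂ) ^ m * κ t‖ := by
      by_contra hc
      push Not at hc
      nlinarith
    have h3 : 1 ≤ Complex.normSq (1 + (t : ℂ) ^ m * κ t) := by
      rw [Complex.normSq_eq_norm_sq]; nlinarith
    have e2 : Complex.normSq (1 + (t : ℂ) ^ m * κ t) = 1 + t ^ m * F t := by
      have : ((t : ℂ) ^ m) = ((t ^ m : ℝ) : ℂ) := by push_cast; rfl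
      rw [this]
      simp only [hF, Complex.normSq_apply, Complex.add_re, Complex.one_re, Complex.mul_re,
        Complex.ofReal_re, Complex.ofReal_im, Complex.add_im, Complex.one_im, Complex.mul_im]
      ring
    rw [e2] at h3
    have htm : 0 < t ^ m := pow_pos ht m
    by_contra hc
    push Not at hc
    nlinarith
  have hlim : Tendsto F (𝓝[>] 0) (𝓝 (F 0)) := hFc.continuousAt.tendsto.mono_left nhdsWithin_le_nhds
  have h4 : 0 ≤ F 0 := ge_of_tendsto hlim (eventually_nhdsWithin_of_forall (fun t ht => hpos t ht))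
  have e3 : F 0 = 2 * (ω ^ m * k.eval 0 / h0).re := by
    have : m ≠ 0 := by omega
    simp [hF, hκ, this]
  rw [e3] at h4
  linarith

theorem first_order (h : ℂ[X]) (ω : ℂ) (h0 : h.eval 0 ≠ 0)
    (hmin : ∀ t : ℝ, 0 < t → ‖h.eval 0‖ ≤ ‖h.eval ((t : ℂ) * ω)‖) :
    0 ≤ (ω * h.derivative.eval 0 / h.eval 0).re := by
  have hk : h = C (h.eval 0) + X ^ 1 * h.divX := by
    rw [pow_one, ← coeff_zero_eq_eval_zero, add_comm, mul_comm]
    exact (divX_mul_X_add h).symm
  have := min_order h h.divX (h.eval 0) ω 1 le_rfl h0 hk hmin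
  have e : h.divX.eval 0 = h.derivative.eval 0 := by
    rw [← coeff_zero_eq_eval_zero, ← coeff_zero_eq_eval_zero, coeff_divX, coeff_derivative]
    simp
  rwa [pow_one, e] at this

theorem second_order (h : ℂ[X]) (ω : ℂ) (h0 : h.eval 0 ≠ 0) (h1 : h.derivative.eval 0 = 0)
    (hmin : ∀ t : ℝ, 0 < t → ‖h.eval 0‖ ≤ ‖h.eval ((t : ℂ) * ω)‖) :
    0 ≤ (ω ^ 2 * h.derivative.derivative.eval 0 / h.eval 0).re := by
  have c1 : h.coeff 1 = 0 := by
    rw [← coeff_zero_eq_eval_zero, coeff_derivative] at h1
    simpa using h1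
  have hk : h = C (h.eval 0) + X ^ 2 * h.divX.divX := by
    have e1 := divX_mul_X_add h
    have e2 := divX_mul_X_add h.divX
    rw [coeff_divX, zero_add, c1, C_0, add_zero] at e2
    rw [← coeff_zero_eq_eval_zero]
    calc h = h.divX * X + C (h.coeff 0) := e1.symm
      _ = h.divX.divX * X * X + C (h.coeff 0) := by rw [e2]
      _ = C (h.coeff 0) + X ^ 2 * h.divX.divX := by ring
  have := min_order h h.divX.divX (h.eval 0) ω 2 (by norm_num) h0 hk hmin
  have e : h.derivative.derivative.eval 0 = 2 * h.divX.divX.eval 0 := by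
    rw [← coeff_zero_eq_eval_zero, ← coeff_zero_eq_eval_zero, coeff_divX, coeff_divX,
      coeff_derivative, coeff_derivative]
    simp
    ring
  rw [e]
  have e' : ω ^ 2 * (2 * h.divX.divX.eval 0) / h.eval 0
      = 2 * (ω ^ 2 * h.divX.divX.eval 0 / h.eval 0) := by ring
  rw [e']
  simp only [Complex.mul_re, Complex.re_ofNat, Complex.im_ofNat, zero_mul, sub_zero]
  linarith

/-- The slit plane: complex numbers that are not nonpositive reals. -/
def Slit (t : ℂ) : Prop := 0 < t.re ∨ t.im ≠ 0

theorem slit_step (G : ℂ[X]) (j σ : ℝ) (hj : 0 < j) (hσ : 0 ≤ σ)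
    (hG : ∀ t, Slit t → G.eval t ≠ 0) (t : ℂ) (ht : Slit t) :
    (j : ℂ) * G.eval t + t * G.derivative.eval t + σ * t * G.eval t ≠ 0 := by
  have hGt := hG t ht
  have ht0 : t ≠ 0 := by
    rintro rfl
    rcases ht with h | h <;> simp at h
  have hlog := (IsAlgClosed.splits G).eval_derivative_div_eval_of_ne_zero hGt
  have hroots : ∀ z ∈ G.roots, z.im = 0 ∧ z.re ≤ 0 := by
    intro z hz
    have hz' : G.eval z = 0 := (mem_roots'.1 hz).2
    by_contra hc
    apply hG z _ hz'
    unfold Slit
    by_cases h1 : z.im = 0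
    · left
      by_contra h2
      exact hc ⟨h1, not_lt.1 h2⟩
    · right; exact h1
  intro hzero
  have e : (j : ℂ) / t + (G.roots.map (fun z => 1 / (t - z))).sum + σ = 0 := by
    rw [← hlog]
    field_simp
    linear_combination hzero
  have hN : 0 < Complex.normSq t := Complex.normSq_pos.2 ht0
  by_cases him : t.im = 0
  · have hre : 0 < t.re := by
      rcases ht with h | h
      · exact h
      · exact absurd him h
    have key : ∀ s : Multiset ℂ, (∀ z ∈ s, z.im = 0 ∧ z.re ≤ 0) →
        0 ≤ ((s.map (fun z => 1 / (t - z))).sum).re := by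
      intro s
      induction s using Multiset.induction_on with
      | empty => simp
      | cons a s ih =>
        intro hs
        simp only [Multiset.map_cons, Multiset.sum_cons, Complex.add_re]
        have h1 := ih (fun z hz => hs z (Multiset.mem_cons_of_mem hz))
        have h2 := hs a (Multiset.mem_cons_self a s)
        have h3 : 0 ≤ (1 / (t - a)).re := by
          rw [one_div, Complex.inv_re]
          apply div_nonneg
          · simp; linarith [h2.2]
          · exact Complex.normSq_nonneg _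
        linarith
    have h1 := key _ hroots
    have h2 : 0 < ((j : ℂ) / t).re := by
      rw [div_eq_mul_inv, Complex.re_ofReal_mul, Complex.inv_re]
      positivity
    have h3 := congrArg Complex.re e
    simp only [Complex.add_re, Complex.ofReal_re, Complex.zero_re] at h3
    linarith
  · have key : ∀ s : Multiset ℂ, (∀ z ∈ s, z.im = 0 ∧ z.re ≤ 0) →
        t.im * ((s.map (fun z => 1 / (t - z))).sum).im ≤ 0 := by
      intro s
      induction s using Multiset.induction_on with
      | empty => simp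
      | cons a s ih =>
        intro hs
        simp only [Multiset.map_cons, Multiset.sum_cons, Complex.add_im]
        have h1 := ih (fun z hz => hs z (Multiset.mem_cons_of_mem hz))
        have h2 := hs a (Multiset.mem_cons_self a s)
        have h3 : t.im * (1 / (t - a)).im ≤ 0 := by
          rw [one_div, Complex.inv_im, Complex.sub_im, h2.1, sub_zero]
          have h4 := Complex.normSq_nonneg (t - a)
          have : t.im * (-t.im / Complex.normSq (t - a))
              = - (t.im ^ 2 / Complex.normSq (t - a)) := by ring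
          rw [this]
          have : 0 ≤ t.im ^ 2 / Complex.normSq (t - a) := by positivity
          linarith
        nlinarith
    have h1 := key _ hroots
    have h2 : t.im * ((j : ℂ) / t).im < 0 := by
      rw [div_eq_mul_inv, Complex.im_ofReal_mul, Complex.inv_im]
      have : t.im * (j * (-t.im / Complex.normSq t)) = - (j * (t.im ^ 2 / Complex.normSq t)) := by
        ring
      rw [this]
      have : 0 < j * (t.im ^ 2 / Complex.normSq t) := by positivity
      linarith
    have h3 := congrArg Complex.im e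
    simp only [Complex.add_im, Complex.ofReal_im, Complex.zero_im, add_zero] at h3
    have h4 : t.im * (((j : ℂ) / t).im + ((G.roots.map (fun z => 1 / (t - z))).sum).im) = 0 := by
      rw [h3, mul_zero]
    nlinarith

/-- The multiplier `t^k ↦ t^k / (j (j+1) ⋯ (j+k-1))`. -/
noncomputable def mult (j : ℕ) (g : ℂ[X]) : ℂ[X] :=
  g.sum (fun k a => monomial k (a / (j.ascFactorial k : ℂ)))

theorem coeff_mult (j : ℕ) (g : ℂ[X]) (k : ℕ) :
    (mult j g).coeff k = g.coeff k / (j.ascFactorial k : ℂ) := by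
  unfold mult
  rw [Polynomial.sum, finsetSum_coeff]
  simp only [coeff_monomial]
  rw [Finset.sum_ite_eq' g.support k]
  split_ifs with h
  · rfl
  · rw [notMem_support_iff.1 h, zero_div]

theorem asc_ne_zero {j : ℕ} (hj : 1 ≤ j) (k : ℕ) : (j.ascFactorial k : ℂ) ≠ 0 := by
  obtain ⟨i, rfl⟩ : ∃ i, j = i + 1 := ⟨j - 1, by omega⟩
  exact_mod_cast (Nat.ascFactorial_pos i k).ne'

theorem asc_succ_left (j k : ℕ) : j.ascFactorial (k + 1) = j * (j + 1).ascFactorial k := by
  induction k with
  | zero => simp [Nat.ascFactorial_succ]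
  | succ k ih =>
    rw [Nat.ascFactorial_succ, ih, Nat.ascFactorial_succ]
    ring

theorem mult_step (j : ℕ) (hj : 1 ≤ j) (σ : ℂ) (g : ℂ[X]) :
    C (j : ℂ) * mult j ((1 + C σ * X) * g)
      = C (j : ℂ) * mult (j + 1) g + X * (mult (j + 1) g).derivative
        + C σ * X * mult (j + 1) g := by
  have hj0 : (j : ℂ) ≠ 0 := by exact_mod_cast (by omega : j ≠ 0)
  ext k
  have e0 : (1 + C σ * X) * g = g + C σ * (X * g) := by ring
  have e1 : (j : ℂ) * ((j + 1).ascFactorial k : ℂ) = (j + k) * (j.ascFactorial k : ℂ) := by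
    have := asc_succ_left j k
    rw [Nat.ascFactorial_succ] at this
    exact_mod_cast this.symm
  have n1 := asc_ne_zero hj k
  have n2 := asc_ne_zero (j := j + 1) (by omega) k
  rw [e0, mul_assoc (C σ)]
  simp only [coeff_add, coeff_C_mul, coeff_mult]
  cases k with
  | zero => simp
  | succ k =>
    simp only [coeff_X_mul, coeff_derivative, coeff_mult]
    have e2 : ((j.ascFactorial (k + 1) : ℕ) : ℂ) = j * ((j + 1).ascFactorial k : ℂ) := by
      exact_mod_cast asc_succ_left j k
    have n3 := asc_ne_zero (j := j + 1) (by omega) k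
    have e3 : (((j + 1).ascFactorial (k + 1) : ℕ) : ℂ)
        = (j + 1 + k) * ((j + 1).ascFactorial k : ℂ) := by
      rw [Nat.ascFactorial_succ]; push_cast; ring
    have n4 : ((j : ℂ) + 1 + k) ≠ 0 := by
      have : ((j + 1 + k : ℕ) : ℂ) ≠ 0 := by exact_mod_cast (by omega : j + 1 + k ≠ 0)
      simpa using this
    rw [e2, e3]
    field_simp
    ring

theorem mult_prod (s : Multiset ℝ) (hs : ∀ σ ∈ s, 0 ≤ σ) (a : ℂ) (ha : a ≠ 0) :
    ∀ j : ℕ, 1 ≤ j → ∀ t, Slit t →
      (mult j (C a * (s.map (fun σ : ℝ => 1 + C (σ : ℂ) * X)).prod)).eval t ≠ 0 := by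
  induction s using Multiset.induction_on with
  | empty =>
    intro j _ t _
    have : mult j (C a * (Multiset.map (fun σ : ℝ => 1 + C (σ : ℂ) * X) 0).prod) = C a := by
      ext k
      rw [coeff_mult]
      simp only [Multiset.map_zero, Multiset.prod_zero, mul_one, coeff_C]
      split_ifs with h
      · subst h; simp
      · simp
    rw [this]; simpa using ha
  | cons σ s ih =>
    intro j hj t ht
    have ih' := ih (fun z hz => hs z (Multiset.mem_cons_of_mem hz)) (j + 1) (by omega)
    have hσ := hs σ (Multiset.mem_cons_self σ s)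
    set g := C a * (s.map (fun σ : ℝ => 1 + C (σ : ℂ) * X)).prod with hg
    have e : C a * (Multiset.map (fun σ : ℝ => 1 + C (σ : ℂ) * X) (σ ::ₘ s)).prod
        = (1 + C (σ : ℂ) * X) * g := by
      rw [Multiset.map_cons, Multiset.prod_cons, hg]; ring
    rw [e]
    have h1 := congrArg (eval t) (mult_step j hj σ g)
    simp only [eval_mul, eval_C, eval_add, eval_X] at h1
    have h2 := slit_step (mult (j + 1) g) j σ (by exact_mod_cast hj) hσ ih' t ht
    intro h3
    apply h2
    rw [h3, mul_zero] at h1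
    rw [Complex.ofReal_natCast]
    linear_combination -h1

theorem mult_slit (g : ℂ[X]) (h0 : g.eval 0 ≠ 0) (hg : ∀ t, Slit t → g.eval t ≠ 0)
    (j : ℕ) (hj : 1 ≤ j) : ∀ t, Slit t → (mult j g).eval t ≠ 0 := by
  have hroots : ∀ z ∈ g.roots, z.im = 0 ∧ z.re < 0 := by
    intro z hz
    have hz' : g.eval z = 0 := (mem_roots'.1 hz).2
    have h1 : ¬ Slit z := fun h => hg z h hz'
    unfold Slit at h1
    push Not at h1
    refine ⟨h1.2, lt_of_le_of_ne h1.1 ?_⟩
    intro h2
    have : z = 0 := Complex.ext h2 h1.2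
    exact h0 (this ▸ hz')
  have hfac := (IsAlgClosed.splits g).eq_prod_roots
  set s : Multiset ℝ := g.roots.map (fun z => -1 / z.re) with hs
  have e : g = C (g.eval 0) * (s.map (fun σ : ℝ => 1 + C (σ : ℂ) * X)).prod := by
    have e1 : ∀ r : Multiset ℂ, (∀ z ∈ r, z.im = 0 ∧ z.re < 0) →
        (r.map (fun a => X - C a)).prod = C ((r.map (fun a => X - C a)).prod.eval 0) *
          ((r.map (fun z => -1 / z.re)).map (fun σ : ℝ => 1 + C (σ : ℂ) * X)).prod := by
      intro r
      induction r using Multiset.induction_on with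
      | empty => simp
      | cons a r ih =>
        intro hr
        have ih' := ih (fun z hz => hr z (Multiset.mem_cons_of_mem hz))
        have ha := hr a (Multiset.mem_cons_self a r)
        have ha' : a = (a.re : ℂ) := Complex.ext (by simp) (by simp [ha.1])
        have hne : (a.re : ℂ) ≠ 0 := by exact_mod_cast ha.2.ne
        simp only [Multiset.map_cons, Multiset.prod_cons, eval_mul, eval_sub, eval_X, eval_C,
          zero_sub, C_mul, C_neg]
        have e2 : X - C a = - C a * (1 + C (((-1 / a.re : ℝ)) : ℂ) * X) := by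
          have : a * (((-1 / a.re : ℝ)) : ℂ) = -1 := by
            push_cast
            conv_lhs => rw [ha']
            simp only [Complex.ofReal_re]
            field_simp
          have h5 : C a * C (((-1 / a.re : ℝ)) : ℂ) = -1 := by
            rw [← C_mul, this]; simp
          linear_combination X * h5
        conv_lhs => rw [ih', e2]
        ring
    conv_lhs => rw [hfac, e1 _ hroots]
    conv_rhs => rw [hfac]
    rw [eval_mul, eval_C, C_mul, mul_assoc]
  rw [e]
  apply mult_prod s _ _ h0 j hj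
  intro σ hσ
  rw [hs, Multiset.mem_map] at hσ
  obtain ⟨z, hz, rfl⟩ := hσ
  have := (hroots z hz).2
  exact div_nonneg_of_nonpos (by norm_num) this.le

theorem hurwitz (F : ℝ → ℂ → ℂ) (hc : Continuous (fun p : ℝ × ℂ => F p.1 p.2))
    (hd : ∀ δ, Differentiable ℂ (F δ)) (ε : ℝ) (hε : 0 < ε)
    (hne : ∀ δ : ℝ, 0 < δ → δ < 1 → ∀ τ ∈ Metric.ball (1 : ℂ) ε, F δ τ ≠ 0)
    (h0 : F 0 0 ≠ 0) : F 0 1 ≠ 0 := by
  intro h1
  have han : AnalyticOnNhd ℂ (F 0) Set.univ := (hd 0).differentiableOn.analyticOnNhd isOpen_univ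
  have hev : ∀ᶠ τ in 𝓝[≠] (1 : ℂ), F 0 τ ≠ 0 := by
    rcases (han 1 trivial).eventually_eq_zero_or_eventually_ne_zero with h | h
    · exfalso
      have := han.eqOn_zero_of_preconnected_of_eventuallyEq_zero isPreconnected_univ
        (Set.mem_univ 1) h
      exact h0 (this (Set.mem_univ 0))
    · exact h
  rw [eventually_nhdsWithin_iff, Metric.eventually_nhds_iff] at hev
  obtain ⟨r, hr, hev⟩ := hev
  set ρ := min r ε / 2 with hρ
  have hρ0 : 0 < ρ := by positivity
  have hρr : ρ < r := by
    have := min_le_left r ε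
    linarith
  have hρε : ρ < ε := by
    have := min_le_right r ε
    linarith
  have hc0 : Continuous (fun τ => ‖F 0 τ‖) := (hd 0).continuous.norm
  obtain ⟨τ0, hτ0, hmin⟩ := (isCompact_sphere (1 : ℂ) ρ).exists_isMinOn
    (NormedSpace.sphere_nonempty.2 hρ0.le) hc0.continuousOn
  have hsph : ∀ τ ∈ Metric.sphere (1 : ℂ) ρ, F 0 τ ≠ 0 := by
    intro τ hτ
    rw [Metric.mem_sphere] at hτ
    apply hev (by rw [hτ]; exact hρr)
    intro h
    rw [Set.mem_singleton_iff] at h
    rw [h, dist_self] at hτ
    exact hρ0.ne hτ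
  set m := ‖F 0 τ0‖ with hm
  have hm0 : 0 < m := norm_pos_iff.2 (hsph τ0 hτ0)
  have ev1 : ∀ᶠ δ in 𝓝 (0 : ℝ), ∀ τ ∈ Metric.sphere (1 : ℂ) ρ, m / 2 < ‖F δ τ‖ := by
    apply (isCompact_sphere (1 : ℂ) ρ).eventually_forall_of_forall_eventually
      (P := fun δ τ => m / 2 < ‖F δ τ‖)
    intro τ hτ
    have : m / 2 < ‖F 0 τ‖ := by
      have := hmin hτ
      simp only [Set.mem_ofPred_eq] at this
      linarith
    exact hc.norm.continuousAt.eventually (lt_mem_nhds this)
  have ev2 : ∀ᶠ δ in 𝓝 (0 : ℝ), ‖F δ 1‖ < m / 2 := by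
    have hc1 : Continuous (fun δ : ℝ => ‖F δ 1‖) :=
      (hc.comp (continuous_id.prodMk continuous_const)).norm
    apply hc1.continuousAt.eventually (gt_mem_nhds _)
    simp only [h1, norm_zero]
    linarith
  have ev3 : ∀ᶠ δ in 𝓝 (0 : ℝ), δ < 1 := gt_mem_nhds one_pos
  obtain ⟨δ, ⟨⟨hδ1, hδ2⟩, hδ3⟩, hδ0⟩ :=
    ((((ev1.and ev2).and ev3).filter_mono nhdsWithin_le_nhds).and
      (self_mem_nhdsWithin (a := (0 : ℝ)) (s := Set.Ioi 0))).exists
  have hδ0' : 0 < δ := hδ0
  have hdc : DiffContOnCl ℂ (fun τ => (F δ τ)⁻¹) (Metric.ball (1 : ℂ) ρ) := by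
    apply DifferentiableOn.diffContOnCl
    rw [closure_ball _ hρ0.ne']
    apply DifferentiableOn.inv (hd δ).differentiableOn
    intro τ hτ
    exact hne δ hδ0' hδ3 τ (Metric.closedBall_subset_ball hρε hτ)
  have hb := Complex.norm_le_of_forall_mem_frontier_norm_le (C := 2 / m) Metric.isBounded_ball hdc
    (by
      intro τ hτ
      rw [frontier_ball _ hρ0.ne'] at hτ
      have := hδ1 τ hτ
      rw [norm_inv, inv_le_comm₀ (by linarith) (by positivity), inv_div]
      exact this.le)
    (subset_closure (Metric.mem_ball_self hρ0))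
  have hne1 := hne δ hδ0' hδ3 1 (Metric.mem_ball_self hε)
  have hpos : 0 < ‖F δ 1‖ := norm_pos_iff.2 hne1
  rw [norm_inv, inv_le_comm₀ hpos (by positivity), inv_div] at hb
  linarith

end Pool.Agent.Lib.MP_675d17_an
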