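import Pool.Agent.Lib.MP_675d17_an.Heat

set_option autoImplicit false

namespace Pool.Agent.Lib.MP_675d17_an

open MvPolynomial Filter Topology

theorem schur_re (z A : ℂ) (hA : 0 < A.re) : (z ^ 2 / A).re ≤ z.re ^ 2 / A.re := by
  have hN : 0 < Complex.normSq A := by
    rw [Complex.normSq_apply]; nlinarith [mul_self_nonneg A.im]
  rw [Complex.div_re, ← add_div, div_le_div_iff₀ hN hA, Complex.normSq_apply]
  simp only [pow_two, Complex.mul_re, Complex.mul_im]
  nlinarith [sq_nonneg (z.re * A.im - z.im * A.re)]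

theorem schur_ge {a b z A B : ℂ} (ha : 0 ≤ a.re) (hb : 0 ≤ b.re) (hz : z.re ^ 2 ≤ a.re * b.re)
    (hA : 0 < A.re) : B.re ≤ (b + B - z ^ 2 / (a + A)).re := by
  have h1 : 0 < (a + A).re := by rw [Complex.add_re]; linarith
  have h2 := schur_re z (a + A) h1
  have h3 : z.re ^ 2 / (a + A).re ≤ b.re := by
    rw [div_le_iff₀ h1, Complex.add_re]; nlinarith
  rw [Complex.sub_re, Complex.add_re]
  linarith

theorem site_ratio {a b z y : ℂ} (ha : 0 ≤ a.re) (hb : 0 ≤ b.re) (hz : z.re ^ 2 ≤ a.re * b.re)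
    (hy : 0 < y.re) {δ : ℝ} (h0 : 0 < δ) (h1 : δ < 1) :
    ∃ w : ℂ, δ / 2 ≤ w.re ∧ ‖w‖ ≤ 1 / δ + 1 ∧
      (a + δ) + y * ((a * b - z ^ 2) + δ * b)
        = w * ((1 + δ * a) + y * (b + δ * (a * b - z ^ 2))) := by
  have hy0 : y ≠ 0 := by rintro rfl; simp at hy
  have hν : 0 < (y⁻¹).re := by
    rw [Complex.inv_re]; exact div_pos hy (Complex.normSq_pos.2 hy0)
  have hV : 0 < (b + y⁻¹).re := by rw [Complex.add_re]; linarith
  have hV0 : b + y⁻¹ ≠ 0 := by intro h; rw [h] at hV; simp at hV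
  set u := a - z ^ 2 / (b + y⁻¹) with hu
  have hu0 : 0 ≤ u.re := by
    have := schur_ge (B := 0) hb ha (by rwa [mul_comm]) hν
    simpa [hu] using this
  have hD : 1 ≤ (1 + δ * u).re := by
    rw [Complex.add_re, Complex.re_ofReal_mul, Complex.one_re]; nlinarith
  have hD0 : (1 + δ * u) ≠ 0 := by intro h; rw [h] at hD; norm_num at hD
  have hN : Complex.normSq (1 + δ * u) = 1 + 2 * δ * u.re + δ ^ 2 * (u.re ^ 2 + u.im ^ 2) := by
    simp only [Complex.normSq_apply, Complex.add_re, Complex.one_re, Complex.re_ofReal_mul,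
      Complex.add_im, Complex.one_im, Complex.im_ofReal_mul]
    ring
  have hNpos : 0 < Complex.normSq (1 + δ * u) := Complex.normSq_pos.2 hD0
  refine ⟨(u + δ) / (1 + δ * u), ?_, ?_, ?_⟩
  · rw [Complex.div_re, ← add_div, le_div_iff₀ hNpos, hN]
    simp only [Complex.add_re, Complex.one_re, Complex.re_ofReal_mul, Complex.add_im,
      Complex.one_im, Complex.im_ofReal_mul, Complex.ofReal_re, Complex.ofReal_im]
    have h2 : δ ^ 2 ≤ 1 := by nlinarith
    have h3 : 0 ≤ u.re ^ 2 + u.im ^ 2 := by positivity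
    have h4 : δ * (δ ^ 2 * (u.re ^ 2 + u.im ^ 2)) ≤ δ * (u.re ^ 2 + u.im ^ 2) := by
      apply mul_le_mul_of_nonneg_left _ h0.le
      nlinarith
    nlinarith
  · have h2 : 1 ≤ ‖1 + δ * u‖ := hD.trans (Complex.re_le_norm _)
    have h3 : δ * ‖u‖ ≤ ‖1 + δ * u‖ := by
      apply (abs_le_of_sq_le_sq' _ (norm_nonneg _)).2
      rw [← Complex.normSq_eq_norm_sq, hN, mul_pow, ← Complex.normSq_eq_norm_sq,
        Complex.normSq_apply]
      nlinarith
    rw [norm_div, div_le_iff₀ (by linarith)]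
    have h4 := norm_add_le u (δ : ℂ)
    rw [Complex.norm_real, Real.norm_eq_abs, abs_of_pos h0] at h4
    have h5 : ‖u‖ ≤ 1 / δ * ‖1 + δ * u‖ := by
      rw [one_div, ← div_eq_inv_mul, le_div_iff₀ h0]; linarith
    nlinarith
  · have hVu : (b + y⁻¹) * u = (b + y⁻¹) * a - z ^ 2 := by
      rw [hu, mul_sub, mul_div_cancel₀ _ hV0]
    have hyy : y * y⁻¹ = 1 := mul_inv_cancel₀ hy0
    have e1 : (a + δ) + y * ((a * b - z ^ 2) + δ * b) = y * (b + y⁻¹) * (u + δ) := by
      linear_combination (-y) * hVu - (a + δ) * hyy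
    have e2 : (1 + δ * a) + y * (b + δ * (a * b - z ^ 2)) = y * (b + y⁻¹) * (1 + δ * u) := by
      linear_combination (-y * δ) * hVu - (1 + δ * a) * hyy
    rw [e1, e2, mul_left_comm, div_mul_cancel₀ _ hD0]

theorem site_lower {y : ℂ} (hy : 0 < y.re) {δ : ℝ} (h0 : 0 < δ) (h1 : δ < 1) :
    ∃ c : ℝ, 0 < c ∧ ∀ a b z : ℂ, 0 ≤ a.re → 0 ≤ b.re → z.re ^ 2 ≤ a.re * b.re →
      c * (1 + ‖pt a b z‖) ≤ ‖(1 + δ * a) + y * (b + δ * (a * b - z ^ 2))‖ := by
  have hy0 : y ≠ 0 := by rintro rfl; simp at hy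
  have hν : 0 < (y⁻¹).re := by
    rw [Complex.inv_re]; exact div_pos hy (Complex.normSq_pos.2 hy0)
  set ν := y⁻¹ with hνdef
  set r := ν.re with hr
  set ρ := ‖ν‖ with hρ
  have hρ0 : 0 ≤ ρ := norm_nonneg _
  set d : ℝ := 1 / δ with hd
  have hd0 : 0 < d := by positivity
  have hd1 : 1 ≤ d := by rw [hd, le_div_iff₀ h0]; linarith
  set k1 : ℝ := 1 / r with hk1
  have hk10 : 0 < k1 := by positivity
  set ka := k1 + k1 * d with hka
  set kb := 1 + ρ * k1 with hkb
  set kq := 1 + ρ * ka + kb * d + ρ * k1 * d with hkq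
  have hka0 : 0 < ka := by positivity
  have hkb0 : 0 < kb := by positivity
  have hkq0 : 0 < kq := by positivity
  have hyn : 0 < ‖y‖ := norm_pos_iff.2 hy0
  refine ⟨‖y‖ * δ / (k1 + ka + kb + kq), by positivity, ?_⟩
  intro a b z ha hb hz
  set q := (a + d) * (b + ν) - z ^ 2 with hq
  have hδ0 : (δ : ℂ) ≠ 0 := by exact_mod_cast h0.ne'
  have e : (1 + δ * a) + y * (b + δ * (a * b - z ^ 2)) = y * δ * q := by
    rw [hq, hνdef, hd]; push_cast; field_simp; ring
  have hV : 0 < (b + ν).re := by rw [Complex.add_re]; linarith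
  have hV0 : b + ν ≠ 0 := by intro h; rw [h] at hV; simp at hV
  have hX : 0 < (a + d).re := by rw [Complex.add_re, Complex.ofReal_re]; linarith
  have hX0 : a + d ≠ 0 := by intro h; rw [h] at hX; simp at hX
  set N := ‖q‖ with hN
  have hN0 : 0 ≤ N := norm_nonneg _
  have b1 : ‖b + ν‖ ≤ N := by
    have h2 := schur_ge (B := (d : ℂ)) hb ha (by rwa [mul_comm]) hν
    have e2 : q = (b + ν) * (a + d - z ^ 2 / (b + ν)) := by rw [hq]; field_simp
    have h3 := h2.trans (Complex.re_le_norm _)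
    rw [Complex.ofReal_re] at h3
    rw [hN, e2, norm_mul]
    nlinarith [norm_nonneg (b + ν)]
  have b2 : ‖a + d‖ ≤ k1 * N := by
    have h2 := schur_ge (A := (d : ℂ)) (B := ν) ha hb hz (by simpa using hd0)
    have e2 : q = (a + d) * (b + ν - z ^ 2 / (a + d)) := by rw [hq]; field_simp
    have h3 := h2.trans (Complex.re_le_norm _)
    rw [hN, e2, norm_mul, hk1, one_div, ← div_eq_inv_mul, le_div_iff₀ hν]
    exact mul_le_mul_of_nonneg_left h3 (norm_nonneg _)
  have b3 : 1 ≤ k1 * N := by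
    have h2 : r ≤ ‖b + ν‖ := by
      refine le_trans ?_ (Complex.re_le_norm _)
      rw [Complex.add_re]; linarith
    rw [hk1, one_div, ← div_eq_inv_mul, le_div_iff₀ hν]
    linarith
  have ba : ‖a‖ ≤ ka * N := by
    have h2 := norm_sub_le (a + d) (d : ℂ)
    rw [add_sub_cancel_right, Complex.norm_real, Real.norm_eq_abs, abs_of_pos hd0] at h2
    rw [hka]; nlinarith
  have bb : ‖b‖ ≤ kb * N := by
    have h2 := norm_sub_le (b + ν) ν
    rw [add_sub_cancel_right] at h2
    rw [hkb]; nlinarith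
  have bq : ‖a * b - z ^ 2‖ ≤ kq * N := by
    have e2 : a * b - z ^ 2 = q - ν * a - b * d - ν * d := by rw [hq]; ring
    have h2 : ‖q - ν * a - b * d - ν * d‖ ≤ N + ρ * ‖a‖ + ‖b‖ * d + ρ * d := by
      refine (norm_sub_le _ _).trans ?_
      refine (add_le_add_left (norm_sub_le _ _) _).trans ?_
      refine (add_le_add_left (add_le_add_left (norm_sub_le _ _) _) _).trans ?_
      simp only [norm_mul, Complex.norm_real, Real.norm_eq_abs, abs_of_pos hd0]
      exact le_rfl
    rw [e2, hkq]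
    have h3 : ρ * ‖a‖ ≤ ρ * (ka * N) := mul_le_mul_of_nonneg_left ba hρ0
    have h4 : ‖b‖ * d ≤ kb * N * d := mul_le_mul_of_nonneg_right bb hd0.le
    have h5 : ρ * d ≤ ρ * d * (k1 * N) := le_mul_of_one_le_right (by positivity) b3
    nlinarith
  have bv : ‖pt a b z‖ ≤ (ka + kb + kq) * N := by
    rw [pi_norm_le_iff_of_nonneg (by positivity)]
    intro i
    fin_cases i
    · simp only [pt, Fin.zero_eta, Matrix.cons_val_zero]; nlinarith
    · simp only [pt, Fin.mk_one, Matrix.cons_val_one, Matrix.cons_val_zero]; nlinarith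
    · simp only [pt, Fin.reduceFinMk, Matrix.cons_val]; nlinarith
  rw [e, norm_mul, norm_mul, Complex.norm_real, Real.norm_eq_abs, abs_of_pos h0, ← hN,
    div_mul_eq_mul_div, div_le_iff₀ (by positivity)]
  have h2 : 1 + ‖pt a b z‖ ≤ N * (k1 + ka + kb + kq) := by nlinarith
  calc ‖y‖ * δ * (1 + ‖pt a b z‖) ≤ ‖y‖ * δ * (N * (k1 + ka + kb + kq)) := by gcongr
    _ = ‖y‖ * δ * N * (k1 + ka + kb + kq) := by ring

variable {ι : Type*} [Fintype ι] [DecidableEq ι]

/-- The multiaffine polynomial with coefficients `f`. -/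
noncomputable def ev (f : Finset ι → ℂ) (y : ι → ℂ) : ℂ := ∑ S, f S * ∏ i ∈ S, y i

/-- No zero with all coordinates in the open right half plane. -/
def Stable (f : Finset ι → ℂ) : Prop := ∀ y : ι → ℂ, (∀ i, 0 < (y i).re) → ev f y ≠ 0

/-- The kernel operator. -/
noncomputable def W (θ : ℕ) (f : Finset ι → ℂ) (T : Finset ι) : ℂ :=
  ∑ S, (val θ (S \ T).card (T \ S).card (S ∩ T).card : ℂ) * f S

noncomputable def sA (δ : ℝ) (S : Finset ι) (i : ι) : P3 :=
  if i ∈ S then X 0 + C (δ : ℂ) * 1 else 1 + C (δ : ℂ) * X 0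

noncomputable def sB (δ : ℝ) (S : Finset ι) (i : ι) : P3 :=
  if i ∈ S then X 2 + C (δ : ℂ) * X 1 else X 1 + C (δ : ℂ) * X 2

noncomputable def Phi (δ : ℝ) (f : Finset ι → ℂ) (y : ι → ℂ) : P3 :=
  ∑ S, f S • ∏ i, (C (y i) * sB δ S i + sA δ S i)

noncomputable def kap (θ : ℕ) (δ : ℝ) (S T : Finset ι) : ℂ :=
  Lam θ (Fintype.card ι) ((∏ i ∈ T, sB δ S i) * ∏ i ∈ Tᶜ, sA δ S i)

theorem Lam_Phi (θ : ℕ) (δ : ℝ) (f : Finset ι → ℂ) (y : ι → ℂ) :
    Lam θ (Fintype.card ι) (Phi δ f y) = ev (fun T => ∑ S, kap θ δ S T * f S) y := by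
  simp only [Phi, map_sum, map_smul, ev, Finset.sum_mul, smul_eq_mul]
  rw [Finset.sum_comm]
  apply Finset.sum_congr rfl
  intro S _
  rw [Fintype.prod_add, map_sum, Finset.mul_sum]
  apply Finset.sum_congr rfl
  intro T _
  rw [Finset.prod_mul_distrib, ← map_prod C, mul_assoc, ← smul_eq_C_mul, map_smul, kap,
    smul_eq_mul]
  ring

theorem cont_prod (Λ : P3 →ₗ[ℂ] ℂ) (P Q : ι → P3) :
    Continuous (fun δ : ℝ => Λ (∏ i, (C (δ : ℂ) * Q i + P i))) := by
  have e : ∀ δ : ℝ, Λ (∏ i, (C (δ : ℂ) * Q i + P i))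
      = ∑ U : Finset ι, (δ : ℂ) ^ U.card * Λ ((∏ i ∈ U, Q i) * ∏ i ∈ Uᶜ, P i) := by
    intro δ
    rw [Fintype.prod_add, map_sum]
    apply Finset.sum_congr rfl
    intro U _
    rw [Finset.prod_mul_distrib, Finset.prod_const, ← map_pow, mul_assoc, ← smul_eq_C_mul,
      map_smul, smul_eq_mul]
  simp only [e]
  fun_prop

theorem kap_cont (θ : ℕ) (S T : Finset ι) : Continuous (fun δ : ℝ => kap θ δ S T) := by
  have e : ∀ δ : ℝ, (∏ i ∈ T, sB δ S i) * ∏ i ∈ Tᶜ, sA δ S i
      = ∏ i, (C (δ : ℂ) * (if i ∈ T then (if i ∈ S then X 1 else X 2)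
          else (if i ∈ S then 1 else X 0))
        + (if i ∈ T then (if i ∈ S then X 2 else X 1) else (if i ∈ S then X 0 else 1))) := by
    intro δ
    rw [← Finset.prod_mul_prod_compl T]
    congr 1
    · apply Finset.prod_congr rfl
      intro i hi
      simp only [sB, if_pos hi]
      split_ifs <;> ring
    · apply Finset.prod_congr rfl
      intro i hi
      rw [Finset.mem_compl] at hi
      simp only [sA, if_neg hi]
      split_ifs <;> ring
  simp only [kap, e]
  exact cont_prod _ _ _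

theorem kap_zero (θ : ℕ) (S T : Finset ι) :
    kap θ 0 S T = (val θ (S \ T).card (T \ S).card (S ∩ T).card : ℂ) := by
  have e1 : ∏ i ∈ T, sB 0 S i = X 2 ^ (S ∩ T).card * X 1 ^ (T \ S).card := by
    simp only [sB, Complex.ofReal_zero, map_zero, zero_mul, add_zero]
    rw [Finset.prod_ite, Finset.prod_const, Finset.prod_const]
    congr 3
    · ext i; simp [and_comm]
    · ext i; simp
  have e2 : ∏ i ∈ Tᶜ, sA 0 S i = X 0 ^ (S \ T).card := by
    simp only [sA, Complex.ofReal_zero, map_zero, zero_mul, add_zero]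
    rw [Finset.prod_ite, Finset.prod_const, Finset.prod_const, one_pow, mul_one]
    congr 2
    ext i; simp [and_comm]
  rw [kap, e1, e2, ← Lam_mono θ (Fintype.card ι)]
  · congr 1
    rw [mono]; ring
  · rw [Finset.card_sdiff_add_card_inter]
    exact Finset.card_le_univ S

theorem Phi_deg (δ : ℝ) (f : Finset ι → ℂ) (y : ι → ℂ) :
    (Phi δ f y).totalDegree ≤ Fintype.card ι := by
  apply totalDegree_finsetSum_le
  intro S _
  refine (totalDegree_smul_le _ _).trans ?_
  refine (totalDegree_finsetProd _ _).trans ?_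
  rw [← Finset.card_univ, Finset.card_eq_sum_ones]
  apply Finset.sum_le_sum
  intro i _
  have hC : ∀ (c : ℂ) (U : P3), U.totalDegree ≤ 1 → (C c * U).totalDegree ≤ 1 := by
    intro c U hU
    refine (totalDegree_mul _ _).trans ?_
    rw [totalDegree_C, zero_add]; exact hU
  have hadd : ∀ U V : P3, U.totalDegree ≤ 1 → V.totalDegree ≤ 1 → (U + V).totalDegree ≤ 1 :=
    fun U V hU hV => (totalDegree_add _ _).trans (max_le hU hV)
  have hX : ∀ j : Fin 3, (X j : P3).totalDegree ≤ 1 := fun j => (totalDegree_X j).le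
  have h1 : (1 : P3).totalDegree ≤ 1 := by simp
  apply hadd
  · apply hC
    unfold sB
    split_ifs
    · exact hadd _ _ (hX _) (hC _ _ (hX _))
    · exact hadd _ _ (hX _) (hC _ _ (hX _))
  · unfold sA
    split_ifs
    · exact hadd _ _ (hX _) (hC _ _ h1)
    · exact hadd _ _ h1 (hC _ _ (hX _))

omit [DecidableEq ι] in
theorem ev_cont (f : Finset ι → ℂ) : Continuous (ev f) := by
  unfold ev
  fun_prop

theorem Phi_lower (f : Finset ι → ℂ) (hf : Stable f) {δ : ℝ} (h0 : 0 < δ) (h1 : δ < 1)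
    (y : ι → ℂ) (hy : ∀ i, 0 < (y i).re) :
    ∃ c : ℝ, 0 < c ∧ ∀ v ∈ Om, c * (1 + ‖v‖) ^ (Fintype.card ι) ≤ ‖eval v (Phi δ f y)‖ := by
  set K : Set ℂ := {w | δ / 2 ≤ w.re} ∩ Metric.closedBall 0 (1 / δ + 1) with hK
  have hKc : IsCompact K :=
    (isCompact_closedBall _ _).inter_left (isClosed_le continuous_const Complex.continuous_re)
  have hKp : IsCompact (Set.pi Set.univ (fun _ : ι => K)) := isCompact_univ_pi (fun _ => hKc)
  have hne : (Set.pi Set.univ (fun _ : ι => K)).Nonempty := by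
    refine ⟨fun _ => 1, fun i _ => ⟨?_, ?_⟩⟩
    · simp only [Set.mem_ofPred_eq, Complex.one_re]; linarith
    · simp only [Metric.mem_closedBall, dist_zero_right, norm_one]
      have : 0 < 1 / δ := by positivity
      linarith
  obtain ⟨w₀, hw₀, hmin⟩ := hKp.exists_isMinOn hne (ev_cont f).norm.continuousOn
  have hm : 0 < ‖ev f w₀‖ := by
    apply norm_pos_iff.2
    apply hf
    intro i
    have := (hw₀ i trivial).1
    simp only [Set.mem_ofPred_eq] at this
    linarith
  choose c hc0 hc using fun i => site_lower (hy i) h0 h1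
  refine ⟨‖ev f w₀‖ * ∏ i, c i, mul_pos hm (Finset.prod_pos (fun i _ => hc0 i)), ?_⟩
  intro v hv
  obtain ⟨a, b, z, rfl, ha, hb, hz⟩ := exists_pt hv
  choose w hw1 hw2 hw3 using fun i => site_ratio ha hb hz (hy i) h0 h1
  set M : ι → ℂ := fun i => (1 + δ * a) + y i * (b + δ * (a * b - z ^ 2)) with hM
  have e : eval (pt a b z) (Phi δ f y) = ev f w * ∏ i, M i := by
    simp only [Phi, map_sum, smul_eval, ev, Finset.sum_mul, map_prod]
    apply Finset.sum_congr rfl
    intro S _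
    rw [mul_assoc]
    congr 1
    rw [← Finset.prod_mul_prod_compl S, ← Finset.prod_mul_prod_compl S (f := M), ← mul_assoc,
      ← Finset.prod_mul_distrib]
    congr 1
    · apply Finset.prod_congr rfl
      intro i hi
      rw [hM]
      simp only
      rw [← hw3 i]
      simp [sA, sB, hi, pt]
      ring
    · apply Finset.prod_congr rfl
      intro i hi
      rw [Finset.mem_compl] at hi
      simp [sA, sB, hi, pt, hM]
      ring
  rw [e, norm_mul, norm_prod, mul_assoc]
  have h2 : ‖ev f w₀‖ ≤ ‖ev f w‖ := by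
    apply hmin
    intro i _
    exact ⟨hw1 i, by simpa using hw2 i⟩
  have h3 : (∏ i, c i) * (1 + ‖pt a b z‖) ^ Fintype.card ι ≤ ∏ i, ‖M i‖ := by
    rw [← Finset.card_univ, ← Finset.prod_const, ← Finset.prod_mul_distrib]
    apply Finset.prod_le_prod
    · intro i _
      have := hc0 i
      positivity
    · intro i _
      exact hc i a b z ha hb hz
  apply mul_le_mul h2 h3 _ (norm_nonneg _)
  have : 0 < ∏ i, c i := Finset.prod_pos (fun i _ => hc0 i)
  positivity

theorem W_empty (θ : ℕ) (f : Finset ι → ℂ) : W θ f ∅ = f ∅ := by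
  unfold W
  rw [Finset.sum_eq_single ∅]
  · simp [val]
  · intro S _ hS
    have : S.card ≠ 0 := by simpa using hS
    simp [val, this]
  · simp

omit [DecidableEq ι] in
theorem ev_zero (f : Finset ι → ℂ) : ev f (fun _ => 0) = f ∅ := by
  unfold ev
  rw [Finset.sum_eq_single ∅]
  · simp
  · intro S _ hS
    have : S.card ≠ 0 := by simpa using hS
    simp [this]
  · simp

theorem W_stable (θ : ℕ) (hθ : 2 ≤ θ) (f : Finset ι → ℂ) (hf : Stable f) (h0 : f ∅ ≠ 0) :
    Stable (W θ f) := by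
  intro y hy
  set F : ℝ → ℂ → ℂ := fun δ τ => ev (fun T => ∑ S, kap θ δ S T * f S) (fun i => τ * y i) with hF
  have hW : (fun T => ∑ S, kap θ 0 S T * f S) = W θ f := by
    funext T
    simp only [kap_zero, W]
  have hev : ∀ᶠ τ in 𝓝 (1 : ℂ), ∀ i, 0 < (τ * y i).re := by
    rw [eventually_all]
    intro i
    have hc : Continuous (fun τ : ℂ => (τ * y i).re) := by fun_prop
    apply hc.continuousAt.eventually (lt_mem_nhds _)
    simpa using hy i
  obtain ⟨ε, hε, hball⟩ := Metric.eventually_nhds_iff_ball.1 hev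
  have := hurwitz F (by
      have hk := kap_cont (ι := ι) θ
      simp only [hF, ev]
      fun_prop) (by
      intro δ
      simp only [hF, ev]
      fun_prop) ε hε (by
      intro δ hδ0 hδ1 τ hτ
      obtain ⟨c, hc0, hc⟩ := Phi_lower f hf hδ0 hδ1 _ (hball τ hτ)
      simp only [hF]
      rw [← Lam_Phi]
      exact Lam_ne_zero θ hθ _ _ (Phi_deg _ _ _) c hc0 hc) (by
      simp only [hF, hW, zero_mul, ev_zero, W_empty]
      exact h0)
  simpa only [hF, hW, one_mul] using this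

end Pool.Agent.Lib.MP_675d17_an
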