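import Pool.Agent.Lib.MP_675d17_an.Jacobi
import Pool.Agent.Lib.MP_675d17_an.Kernel

set_option autoImplicit false

namespace Pool.Agent.Lib.MP_675d17_an

open Finset

theorem kern {κ : Type} [DecidableEq κ] (E : Finset κ) : ∀ d R : ℕ,
    ∑ D ∈ E.powerset, R.ascFactorial D.card * (E.card + d - D.card).factorial
      = d.factorial * (R + 1 + d).ascFactorial E.card := by
  induction E using Finset.induction_on with
  | empty => intro d R; simp
  | insert a E ha ih =>
    intro d R
    rw [sum_powerset_insert ha, card_insert_of_notMem ha]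
    have e1 : ∑ D ∈ E.powerset, R.ascFactorial D.card * (E.card + 1 + d - D.card).factorial
        = (d + 1).factorial * (R + 1 + (d + 1)).ascFactorial E.card := by
      rw [← ih (d + 1) R]
      apply sum_congr rfl
      intro D _
      congr 3
      omega
    have e2 : ∑ D ∈ E.powerset, R.ascFactorial (insert a D).card
          * (E.card + 1 + d - (insert a D).card).factorial
        = R * (d.factorial * (R + 1 + 1 + d).ascFactorial E.card) := by
      rw [← ih d (R + 1), mul_sum]
      apply sum_congr rfl
      intro D hD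
      have hD' : a ∉ D := fun h => ha (mem_powerset.1 hD h)
      rw [card_insert_of_notMem hD', asc_succ_left, mul_assoc]
      congr 3
      omega
    rw [e1, e2, asc_succ_left, Nat.factorial_succ]
    have e3 : R + 1 + (d + 1) = R + 1 + d + 1 := by omega
    have e4 : R + 1 + 1 + d = R + 1 + d + 1 := by omega
    rw [e3, e4]
    ring

variable {κ : Type} [Fintype κ] [DecidableEq κ] {ι : Type} [Fintype ι] [DecidableEq ι]

theorem down (x : ι → ℂ) (R m : ℕ) (hm : Fintype.card κ = m + 1) (a : ℂ) (Z : Finset ι → ℂ)
    (hZ : ∀ ψ : κ → ι, Function.Injective ψ → PP x (R + m) univ ψ * a = Z (univ.image ψ)) :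
    ∀ (d : ℕ) (D : Finset κ) (ψ : κ → ι), D.card + d = m + 1 → Set.InjOn ψ D →
      ((R + D.card).ascFactorial d : ℂ) * PP x (R + m) D ψ * a
        = d.factorial * ∑ S, if S.card = m + 1 ∧ D.image ψ ⊆ S then Z S else 0 := by
  intro d
  induction d with
  | zero =>
    intro D ψ hD hψ
    have hu : D = univ := by
      apply eq_univ_of_card
      rw [hm, ← hD, add_zero]
    subst hu
    have hi : Function.Injective ψ := by
      rw [coe_univ] at hψ
      exact Set.injOn_univ.1 hψ
    have hc : (univ.image ψ).card = m + 1 := by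
      rw [card_image_of_injective _ hi, card_univ, hm]
    rw [sum_eq_single (univ.image ψ)]
    · simp [hc, hZ ψ hi]
    · intro S _ hS
      rw [if_neg]
      rintro ⟨h1, h2⟩
      exact hS (eq_of_subset_of_card_le h2 (by rw [h1, hc])).symm
    · simp
  | succ d ih =>
    intro D ψ hD hψ
    obtain ⟨j, hj⟩ : ∃ j, j ∉ D := by
      by_contra h
      push Not at h
      have : D = univ := eq_univ_iff_forall.2 h
      rw [this, card_univ, hm] at hD
      omega
    have h1 := loop x (R + m) D ψ hψ hj
    have h2 : ((R + m : ℕ) : ℂ) + 1 + D.card - Fintype.card κ = ((R + D.card : ℕ) : ℂ) := by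
      rw [hm]; push_cast; ring
    rw [h2] at h1
    have h3 : ∀ i ∈ (D.image ψ)ᶜ, ((R + D.card + 1).ascFactorial d : ℂ)
        * PP x (R + m) (insert j D) (Function.update ψ j i) * a
        = d.factorial * ∑ S, if S.card = m + 1 ∧ insert i (D.image ψ) ⊆ S then Z S else 0 := by
      intro i hi
      rw [mem_compl] at hi
      have hup : ∀ l ∈ D, Function.update ψ j i l = ψ l := by
        intro l hl
        apply Function.update_of_ne
        rintro rfl; exact hj hl
      have him : (insert j D).image (Function.update ψ j i) = insert i (D.image ψ) := by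
        rw [image_insert, Function.update_self, image_congr (fun l hl => hup l hl)]
      have := ih (insert j D) (Function.update ψ j i)
        (by rw [card_insert_of_notMem hj]; omega) (by
          rw [← card_image_iff, him, card_insert_of_notMem hi, card_insert_of_notMem hj,
            card_image_iff.2 hψ])
      rw [him, card_insert_of_notMem hj, ← add_assoc] at this
      exact this
    have h4 : ∀ S : Finset ι,
        (∑ i ∈ (D.image ψ)ᶜ, if S.card = m + 1 ∧ insert i (D.image ψ) ⊆ S then Z S else 0)
        = ((d + 1 : ℕ) : ℂ) * if S.card = m + 1 ∧ D.image ψ ⊆ S then Z S else 0 := by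
      intro S
      by_cases hS : S.card = m + 1 ∧ D.image ψ ⊆ S
      · rw [if_pos hS, ← sum_filter, sum_const, nsmul_eq_mul]
        congr 2
        have : filter (fun i => S.card = m + 1 ∧ insert i (D.image ψ) ⊆ S) (D.image ψ)ᶜ
            = S \ D.image ψ := by
          ext i
          simp only [mem_filter, mem_compl, insert_subset_iff, mem_sdiff, hS.1, hS.2, true_and,
            and_true]
          exact and_comm
        rw [this, card_sdiff_of_subset hS.2, hS.1, card_image_iff.2 hψ]
        omega
      · rw [if_neg hS, mul_zero]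
        apply sum_eq_zero
        intro i _
        rw [if_neg]
        rintro ⟨g1, g2⟩
        exact hS ⟨g1, (subset_insert _ _).trans g2⟩
    rw [asc_succ_left, Nat.cast_mul, mul_comm ((R + D.card : ℕ) : ℂ), mul_assoc _ _ (PP _ _ _ _),
      ← h1, mul_sum, sum_mul, sum_congr rfl h3, ← mul_sum, sum_comm,
      sum_congr rfl (fun S _ => h4 S), ← mul_sum, Nat.factorial_succ]
    push_cast
    ring

theorem step (x : ι → ℂ) (R m : ℕ) (hm : Fintype.card κ = m + 1) (a : ℂ) (Z : Finset ι → ℂ)
    (hZ : ∀ ψ : κ → ι, Function.Injective ψ → PP x (R + m) univ ψ * a = Z (univ.image ψ))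
    (ψ : κ → ι) (hψ : Function.Injective ψ) :
    PP x (R + m + 1) univ ψ * (a * (R.ascFactorial (m + 1) : ℂ))
      = (∏ i ∈ univ.image ψ, x i) * W (R + 1) Z (univ.image ψ) := by
  have hT : (univ.image ψ).card = m + 1 := by
    rw [card_image_of_injective _ hψ, card_univ, hm]
  rw [PP_full, prod_image (fun _ _ _ _ h => hψ h), mul_assoc]
  congr 1
  have h1 : ∀ D : Finset κ, PP x (R + m) D ψ * (a * (R.ascFactorial (m + 1) : ℂ))
      = ∑ S, if S.card = m + 1 ∧ D.image ψ ⊆ S then
          ((R.ascFactorial D.card * (m + 1 - D.card).factorial : ℕ) : ℂ) * Z S else 0 := by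
    intro D
    have hD : D.card ≤ m + 1 := hm ▸ card_le_univ D
    have h2 := down x R m hm a Z hZ (m + 1 - D.card) D ψ (by omega) hψ.injOn
    have h3 : R.ascFactorial (m + 1)
        = R.ascFactorial D.card * (R + D.card).ascFactorial (m + 1 - D.card) := by
      rw [Nat.ascFactorial_mul_ascFactorial]
      congr 1
      omega
    have h4 : (∑ S, if S.card = m + 1 ∧ D.image ψ ⊆ S then
          ((R.ascFactorial D.card * (m + 1 - D.card).factorial : ℕ) : ℂ) * Z S else 0)
        = (R.ascFactorial D.card : ℂ) * ((m + 1 - D.card).factorial *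
          ∑ S, if S.card = m + 1 ∧ D.image ψ ⊆ S then Z S else 0) := by
      rw [mul_sum, mul_sum]
      apply sum_congr rfl
      intro S _
      split_ifs
      · push_cast; ring
      · simp
    rw [h4, ← h2, h3]
    push_cast
    ring
  rw [sum_mul, sum_congr rfl (fun D _ => h1 D), sum_comm, W]
  apply sum_congr rfl
  intro S _
  have g1 := card_sdiff_add_card_inter S (univ.image ψ)
  have g2 := card_sdiff_add_card_inter (univ.image ψ) S
  rw [inter_comm, hT] at g2
  by_cases hS : S.card = m + 1
  · set E : Finset κ := univ.filter (fun l => ψ l ∈ S) with hE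
    have hEc : E.card = (S ∩ univ.image ψ).card := by
      rw [← card_image_of_injective E hψ]
      congr 1
      ext i
      simp only [hE, mem_image, mem_filter, mem_univ, true_and, mem_inter]
      constructor
      · rintro ⟨l, h1, rfl⟩
        exact ⟨h1, l, rfl⟩
      · rintro ⟨h1, l, rfl⟩
        exact ⟨l, h1, rfl⟩
    have hk := kern E (S \ univ.image ψ).card R
    have h5 : E.card + (S \ univ.image ψ).card = m + 1 := by omega
    rw [h5] at hk
    rw [val, if_pos (by omega), ← hEc, ← hk, ← sum_filter, ← sum_mul, ← Nat.cast_sum]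
    congr 3
    ext D
    simp only [mem_filter, mem_univ, true_and, hS, mem_powerset, image_subset_iff, hE,
      subset_iff]
    simp
  · rw [val, if_neg (by omega)]
    simp [hS]

/-- The chain of weights. -/
noncomputable def ZZ (x : ι → ℂ) : ℕ → Finset ι → ℂ
  | 0 => fun T => ∏ i ∈ T, x i
  | R + 1 => fun T => (∏ i ∈ T, x i) * W (R + 2) (ZZ x R) T

theorem W_smul (θ : ℕ) (c : ℂ) (f : Finset ι → ℂ) (T : Finset ι) :
    W θ (fun S => c * f S) T = c * W θ f T := by
  unfold W
  rw [mul_sum]
  apply sum_congr rfl
  intro S _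
  ring

omit [DecidableEq ι] in
theorem coeff_zero_Hs (x : ι → ℂ) : PowerSeries.coeff 0 (Hs x) = 1 := by
  have h := congrArg (PowerSeries.constantCoeff (R := ℂ)) (As_mul_Hs x)
  rw [map_mul, As, map_prod] at h
  simpa using h

theorem chain_full (x : ι → ℂ) (m : ℕ) (c : ℂ)
    (hc : ∀ (R : ℕ) (ψ : Fin (m + 1) → ι), PP x (R + m) ∅ ψ = c * JJ (Hs x) (m + 1) R) (R : ℕ) :
    ∀ ψ : Fin (m + 1) → ι, Function.Injective ψ →
      PP x (R + 1 + m) univ ψ * ∏ j ∈ range R, ((j + 1).ascFactorial (m + 1) : ℂ)
        = c * ZZ x R (univ.image ψ) := by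
  induction R with
  | zero =>
    intro ψ hψ
    have e : 0 + 1 + m = m + 1 := by omega
    have h0 := hc 0 ψ
    rw [zero_add, JJ_zero _ (coeff_zero_Hs x), mul_one] at h0
    rw [e, PP_full, sum_eq_single ∅, h0, ZZ]
    · simp only [range_zero, prod_empty, mul_one]
      rw [prod_image (fun _ _ _ _ h => hψ h), mul_comm]
    · intro D _ hD
      exact PP_base x m (by simp) D ψ hD
    · simp
  | succ R ih =>
    intro ψ hψ
    have h := step x (R + 1) m (Fintype.card_fin _) _ (fun S => c * ZZ x R S) ih ψ hψ
    have e : R + 1 + 1 + m = R + 1 + m + 1 := by omega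
    rw [e, prod_range_succ, h, W_smul, ZZ]
    ring

theorem ZZ_empty (x : ι → ℂ) (R : ℕ) : ZZ x R ∅ = 1 := by
  induction R with
  | zero => simp [ZZ]
  | succ R ih => simp [ZZ, W_empty, ih]

theorem chain (x : ι → ℂ) (R k : ℕ) (hk : k ≤ Fintype.card ι) :
    (∑ S : Finset ι, if S.card = k then ZZ x R S else 0)
      = (∏ j ∈ range R, ((j + 2).ascFactorial k : ℂ)) * JJ (Hs x) k (R + 1) := by
  rcases k with _ | m
  · simp [ZZ_empty, JJ]
  · obtain ⟨c, hc0, hc⟩ := PP_empty (ι := ι) m
    have hne : Nonempty ι := Fintype.card_pos_iff.1 (by omega)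
    obtain ⟨i⟩ := hne
    have h := down x (R + 1) m (Fintype.card_fin _) _ (fun S => c * ZZ x R S)
      (chain_full x m c (hc x) R) (m + 1) ∅ (fun _ => i) (by simp) (by simp)
    rw [hc] at h
    simp only [card_empty, add_zero, image_empty, empty_subset, and_true] at h
    have e1 : (∑ S : Finset ι, if S.card = m + 1 then c * ZZ x R S else 0)
        = c * ∑ S : Finset ι, if S.card = m + 1 then ZZ x R S else 0 := by
      rw [mul_sum]
      apply sum_congr rfl
      intro S _
      split_ifs <;> simp
    have e2 := prod_range_succ (fun j => ((j + 1).ascFactorial (m + 1) : ℂ)) R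
    rw [prod_range_succ'] at e2
    simp only [zero_add, Nat.one_ascFactorial] at e2
    have hf : ((m + 1).factorial : ℂ) ≠ 0 := by exact_mod_cast Nat.factorial_ne_zero _
    apply mul_left_cancel₀ (mul_ne_zero hf hc0)
    rw [e1] at h
    linear_combination (-1 : ℂ) * h - (c * JJ (Hs x) (m + 1) (R + 1)) * e2

end Pool.Agent.Lib.MP_675d17_an
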