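import Pool.Agent.Lib.MP_675d17_an.Loop

set_option autoImplicit false

namespace Pool.Agent.Lib.MP_675d17_an

open MvPowerSeries Finset

section Det

variable {κ : Type} [Fintype κ] [DecidableEq κ]

/-- a one variable series placed in the slot `l` -/
noncomputable def emb (l : κ) : PowerSeries ℂ →ₐ[ℂ] MvPowerSeries κ ℂ :=
  rename (fun _ : Unit => l)

omit [Fintype κ] [DecidableEq κ] in
theorem coeff_emb (l : κ) (n : ℕ) (f : PowerSeries ℂ) :
    coeff (Finsupp.single l n) (emb l f) = PowerSeries.coeff n f := by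
  have h := coeff_embDomain_rename (⟨fun _ : Unit => l, fun _ _ _ => rfl⟩ : Unit ↪ κ) f
    (Finsupp.single () n)
  rw [Finsupp.embDomain_single] at h
  exact h

omit [Fintype κ] [DecidableEq κ] in
theorem coeff_emb_zero (l : κ) (d : κ →₀ ℕ) (f : PowerSeries ℂ)
    (h : d ≠ Finsupp.single l (d l)) : coeff d (emb l f) = 0 := by
  apply coeff_rename_eq_zero
  rintro ⟨u, rfl⟩
  apply h
  have : u = Finsupp.single () (u ()) := by ext; simp
  rw [this]
  simp

theorem LL_prod_emb (N : ℕ) (f : κ → PowerSeries ℂ) :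
    LL N (∏ l, emb l (f l)) = ∏ l, PowerSeries.coeff N (f l) := by
  unfold LL
  rw [coeff_prod, sum_eq_single (Finsupp.equivFunOnFinite.symm (fun l => Finsupp.single l N))]
  · apply prod_congr rfl
    intro l _
    exact coeff_emb l N (f l)
  · intro u hu hne
    rw [mem_finsuppAntidiag] at hu
    by_contra hc
    apply hne
    have h1 : ∀ l, u l = Finsupp.single l (u l l) := by
      intro l
      by_contra h2
      exact hc (prod_eq_zero (mem_univ l) (coeff_emb_zero l _ _ h2))
    have h2 : ∀ l, u l l = N := by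
      intro l
      have h3 := congrArg (fun v : κ →₀ ℕ => v l) hu.1
      simp only [Finsupp.finsetSum_apply, cst_apply] at h3
      rw [sum_eq_single l] at h3
      · exact h3
      · intro a _ hal
        rw [h1 a, Finsupp.single_eq_of_ne hal.symm]
      · simp
    ext1 l
    rw [h1 l, h2 l]
    rfl
  · intro h
    exfalso
    apply h
    rw [mem_finsuppAntidiag]
    refine ⟨?_, subset_univ _⟩
    ext l
    simp [Finsupp.finsetSum_apply, Finsupp.single_apply]

variable {ι : Type} [Fintype ι]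

/-- generating series of the complete symmetric functions -/
noncomputable def Hs (x : ι → ℂ) : PowerSeries ℂ := ∏ i, GG (x i) ()

/-- generating series of the signed elementary symmetric functions -/
noncomputable def As (x : ι → ℂ) : PowerSeries ℂ :=
  ∏ i, (1 - PowerSeries.C (x i) * PowerSeries.X)

theorem As_mul_Hs (x : ι → ℂ) : As x * Hs x = 1 := by
  unfold As Hs
  rw [← prod_mul_distrib]
  apply prod_eq_one
  intro i _
  rw [mul_comm]
  exact GG_mul (x i) ()

omit [Fintype κ] [DecidableEq κ] in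
theorem emb_X (l : κ) : emb l PowerSeries.X = X l := rename_X _ ()

omit [Fintype κ] [DecidableEq κ] in
theorem emb_GG (l : κ) (x : ℂ) : emb l (GG x ()) = GG x l := by
  have h := congrArg (rename (R := ℂ) (fun _ : Unit => l)) (GG_mul x ())
  simp only [map_mul, map_sub, map_one, rename_C, rename_X] at h
  have h2 := GG_mul x l
  unfold emb
  linear_combination (GG x l) * h - (rename (fun _ : Unit => l) (GG x ())) * h2

omit [DecidableEq κ] in
theorem HH_eq (x : ι → ℂ) : HH κ x = ∏ l, emb l (Hs x) := by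
  unfold HH Hs
  simp only [map_prod, emb_GG]

end Det

theorem VV_vandermonde (k : ℕ) : ∃ e : ℂ, e ≠ 0 ∧
    VV (Fin k) = e • (Matrix.vandermonde (fun l : Fin k => (X l : MvPowerSeries (Fin k) ℂ))).det ^ 2 := by
  refine ⟨∏ i : Fin k, ∏ j ∈ Ioi i, (-1), ?_, ?_⟩
  · rw [prod_ne_zero_iff]
    intro i _
    rw [prod_ne_zero_iff]
    intro j _
    norm_num
  · rw [Matrix.det_vandermonde, smul_eq_C_mul, map_prod, ← prod_pow, ← prod_mul_distrib, VV]
    have := prod_prod_Ioi_mul_eq_prod_prod_off_diag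
      (fun j i : Fin k => (X j - X i : MvPowerSeries (Fin k) ℂ))
    have e : ∏ a : Fin k, ∏ b ∈ ({a} : Finset (Fin k))ᶜ, (X b - X a : MvPowerSeries (Fin k) ℂ)
        = ∏ i : Fin k, ∏ j ∈ Ioi i, (X j - X i) * (X i - X j) := by
      rw [this]
    rw [e]
    apply prod_congr rfl
    intro i _
    rw [map_prod, ← prod_pow, ← prod_mul_distrib]
    apply prod_congr rfl
    intro j _
    rw [map_neg, map_one]
    ring

theorem LL_det (k N : ℕ) (B : PowerSeries ℂ) :
    LL N ((Matrix.vandermonde (fun l : Fin k => (X l : MvPowerSeries (Fin k) ℂ))).det ^ 2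
      * ∏ l, emb l B)
    = k.factorial * (Matrix.of fun a b : Fin k =>
        PowerSeries.coeff N (PowerSeries.X ^ ((a : ℕ) + b) * B)).det := by
  set K : Matrix (Fin k) (Fin k) ℂ := Matrix.of fun a b : Fin k =>
        PowerSeries.coeff N (PowerSeries.X ^ ((a : ℕ) + b) * B) with hK
  rw [← Matrix.det_transpose, Matrix.det_apply', pow_two, sum_mul_sum, sum_comm, sum_mul,
    map_sum]
  have e : ∀ τ : Equiv.Perm (Fin k), LL N ((∑ σ : Equiv.Perm (Fin k),
      (((Equiv.Perm.sign σ : ℤˣ) : ℤ) : MvPowerSeries (Fin k) ℂ) *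
        (∏ i, (Matrix.vandermonde (fun l : Fin k => (X l : MvPowerSeries (Fin k) ℂ))).transpose
          (σ i) i) *
      ((((Equiv.Perm.sign τ : ℤˣ) : ℤ) : MvPowerSeries (Fin k) ℂ) *
        ∏ i, (Matrix.vandermonde (fun l : Fin k => (X l : MvPowerSeries (Fin k) ℂ))).transpose
          (τ i) i)) * ∏ l, emb l B) = K.det := by
    intro τ
    have h1 := Matrix.det_permute' τ K
    have h2 : ((((Equiv.Perm.sign τ : ℤˣ) : ℤ) : ℂ)) * ((Equiv.Perm.sign τ : ℤˣ) : ℤ) = 1 := by
      rw [← Int.cast_mul, ← Units.val_mul, Int.units_mul_self]; simp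
    have h3 : K.det = ((Equiv.Perm.sign τ : ℤˣ) : ℤ) * (K.submatrix id τ).det := by
      rw [h1, ← mul_assoc, h2, one_mul]
    rw [h3, Matrix.det_apply', sum_mul, map_sum, mul_sum]
    apply sum_congr rfl
    intro σ _
    have e1 : (((Equiv.Perm.sign σ : ℤˣ) : ℤ) : MvPowerSeries (Fin k) ℂ) *
        (∏ i, (Matrix.vandermonde (fun l : Fin k => (X l : MvPowerSeries (Fin k) ℂ))).transpose
          (σ i) i) *
      ((((Equiv.Perm.sign τ : ℤˣ) : ℤ) : MvPowerSeries (Fin k) ℂ) *
        ∏ i, (Matrix.vandermonde (fun l : Fin k => (X l : MvPowerSeries (Fin k) ℂ))).transpose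
          (τ i) i) * ∏ l, emb l B
        = ((((Equiv.Perm.sign τ : ℤˣ) : ℤ) : ℂ) * ((Equiv.Perm.sign σ : ℤˣ) : ℤ)) •
          ∏ l, emb l (PowerSeries.X ^ ((σ l : ℕ) + τ l) * B) := by
      simp only [Matrix.transpose_apply, Matrix.vandermonde_apply, map_mul, map_pow, emb_X,
        pow_add, prod_mul_distrib, smul_eq_C_mul, map_intCast]
      ring
    rw [e1, map_smul, LL_prod_emb, smul_eq_mul, mul_assoc]
    rfl
  rw [sum_congr rfl (fun τ _ => e τ), sum_const, card_univ, Fintype.card_perm, Fintype.card_fin,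
    nsmul_eq_mul]

/-- the dual Toeplitz minor -/
noncomputable def JJ (B : PowerSeries ℂ) (k R : ℕ) : ℂ :=
  (Matrix.of fun a b : Fin k => PowerSeries.coeff (R + a) (PowerSeries.X ^ (b : ℕ) * B)).det

theorem JJ_zero (B : PowerSeries ℂ) (hB : PowerSeries.coeff 0 B = 1) (k : ℕ) : JJ B k 0 = 1 := by
  unfold JJ
  rw [Matrix.det_of_isLowerTriangular]
  · apply prod_eq_one
    intro a _
    have := PowerSeries.coeff_X_pow_mul B a 0
    simp only [Matrix.of_apply]
    rw [this, hB]
  · intro a b hab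
    simp only [Matrix.of_apply]
    rw [PowerSeries.coeff_X_pow_mul', if_neg]
    have : a < b := hab
    simpa using this

theorem PP_empty {ι : Type} [Fintype ι] (m : ℕ) : ∃ c : ℂ, c ≠ 0 ∧
    ∀ (x : ι → ℂ) (R : ℕ) (ψ : Fin (m + 1) → ι), PP x (R + m) ∅ ψ = c * JJ (Hs x) (m + 1) R := by
  obtain ⟨e, he, hV⟩ := VV_vandermonde (m + 1)
  refine ⟨e * (m + 1).factorial * ((Equiv.Perm.sign (Fin.revPerm (n := m + 1)) : ℤˣ) : ℤ), ?_, ?_⟩
  · apply mul_ne_zero (mul_ne_zero he _)
    · exact_mod_cast Units.ne_zero _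
    · exact_mod_cast Nat.factorial_ne_zero _
  · intro x R ψ
    rw [PP, FF, prod_empty, mul_one, hV, smul_mul_assoc, map_smul, HH_eq, LL_det, smul_eq_mul,
      mul_assoc, mul_assoc, JJ, ← Matrix.det_permute]
    congr 3
    ext a b
    simp only [Matrix.of_apply, Matrix.submatrix_apply, id, Fin.revPerm_apply, Fin.val_rev]
    have ha := a.isLt
    have e1 : R + m = (R + (m + 1 - (a + 1))) + a := by omega
    rw [pow_add, mul_assoc, e1, PowerSeries.coeff_X_pow_mul]

end Pool.Agent.Lib.MP_675d17_an
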