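import Pool.Agent.Lib.MP_675d17_an.Chain

set_option autoImplicit false

namespace Pool.Agent.Lib.MP_675d17_an

open Finset Polynomial

theorem re_mul_pos {l y : ℂ} (hl : 0 < l.re) (hy : 0 < y.re) (h : (l * y).im = 0) :
    0 < (l * y).re := by
  rw [Complex.mul_im] at h
  rw [Complex.mul_re]
  have h1 : l.re * (l.re * y.re - l.im * y.im) = (l.re ^ 2 + l.im ^ 2) * y.re := by
    linear_combination (-l.im) * h
  have h2 : 0 < (l.re ^ 2 + l.im ^ 2) * y.re := by positivity
  rw [← h1] at h2
  exact (mul_pos_iff_of_pos_left hl).1 h2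

variable {ι : Type} [Fintype ι] [DecidableEq ι]

theorem W_scale (θ : ℕ) (l : ℂ) (f : Finset ι → ℂ) (T : Finset ι) :
    W θ (fun S => l ^ S.card * f S) T = l ^ T.card * W θ f T := by
  unfold W
  rw [mul_sum]
  apply sum_congr rfl
  intro S _
  have g1 := card_sdiff_add_card_inter S T
  have g2 := card_sdiff_add_card_inter T S
  rw [inter_comm] at g2
  by_cases h : S.card = T.card
  · simp only [h]; ring
  · rw [val, if_neg (by omega)]
    simp

theorem ZZ_stable (x : ι → ℝ) (hx : ∀ i, 0 < x i) (l : ℂ) (hl : 0 < l.re) (R : ℕ) :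
    Stable (fun S => l ^ S.card * ZZ (fun i => (x i : ℂ)) R S) := by
  induction R with
  | zero =>
    intro y hy
    have e : ev (fun S => l ^ S.card * ZZ (fun i => (x i : ℂ)) 0 S) y
        = ∏ i, (1 + x i * (l * y i)) := by
      rw [prod_one_add, powerset_univ, ev]
      apply sum_congr rfl
      intro S _
      simp only [ZZ, prod_mul_distrib, prod_const]
      ring
    rw [e, prod_ne_zero_iff]
    intro i _ h
    have h1 := congrArg Complex.im h
    have h2 := congrArg Complex.re h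
    rw [Complex.add_im, Complex.one_im, Complex.im_ofReal_mul, zero_add, Complex.zero_im] at h1
    rw [Complex.add_re, Complex.one_re, Complex.re_ofReal_mul, Complex.zero_re] at h2
    have h3 := re_mul_pos hl (hy i) ((mul_eq_zero.1 h1).resolve_left (hx i).ne')
    have := mul_pos (hx i) h3
    linarith
  | succ R ih =>
    have h := W_stable (R + 2) (by omega) _ ih (by simp [ZZ_empty])
    intro y hy
    have h2 := h (fun i => x i * y i) (fun i => by
      rw [Complex.re_ofReal_mul]; exact mul_pos (hx i) (hy i))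
    have e : ev (fun S => l ^ S.card * ZZ (fun i => (x i : ℂ)) (R + 1) S) y
        = ev (W (R + 2) (fun S => l ^ S.card * ZZ (fun i => (x i : ℂ)) R S))
          (fun i => x i * y i) := by
      unfold ev
      apply sum_congr rfl
      intro S _
      simp only [ZZ, W_scale, prod_mul_distrib]
      ring
    rw [e]
    exact h2

theorem slit_sqrt {t : ℂ} (ht : Slit t) : ∃ l : ℂ, 0 < l.re ∧ t = l * l := by
  obtain ⟨z, rfl⟩ := IsAlgClosed.exists_eq_mul_self t
  rcases lt_trichotomy z.re 0 with h | h | h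
  · exact ⟨-z, by simpa using h, by ring⟩
  · exfalso
    rcases ht with h1 | h1
    · rw [Complex.mul_re, h] at h1
      nlinarith [mul_self_nonneg z.im]
    · apply h1
      rw [Complex.mul_im, h]; ring
  · exact ⟨z, h, rfl⟩

theorem mult_iter (R : ℕ) (g : ℂ[X]) (h0 : g.eval 0 ≠ 0) (hg : ∀ t, Slit t → g.eval t ≠ 0) :
    ∃ G : ℂ[X], (∀ k, (∏ j ∈ range R, ((j + 2).ascFactorial k : ℂ)) * G.coeff k = g.coeff k) ∧
      G.eval 0 ≠ 0 ∧ ∀ t, Slit t → G.eval t ≠ 0 := by
  induction R with
  | zero => exact ⟨g, by simp, h0, hg⟩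
  | succ R ih =>
    obtain ⟨G, h1, h2, h3⟩ := ih
    refine ⟨mult (R + 2) G, ?_, ?_, mult_slit G h2 h3 (R + 2) (by omega)⟩
    · intro k
      rw [prod_range_succ, coeff_mult, mul_assoc, mul_div_cancel₀ _ (asc_ne_zero (by omega) k),
        h1]
    · rw [← coeff_zero_eq_eval_zero] at h2 ⊢
      rw [coeff_mult]
      simpa using h2

theorem exists_G (x : ι → ℝ) (hx : ∀ i, 0 < x i) (R : ℕ) :
    ∃ G : ℂ[X], (∀ k, G.coeff k = if k ≤ Fintype.card ι then
        JJ (Hs (fun i => (x i : ℂ))) k (R + 1) else 0) ∧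
      G.eval 0 ≠ 0 ∧ ∀ t, Slit t → G.eval t ≠ 0 := by
  set g : ℂ[X] := ∑ S : Finset ι, monomial S.card (ZZ (fun i => (x i : ℂ)) R S) with hg
  have hc : ∀ k, g.coeff k
      = ∑ S : Finset ι, if S.card = k then ZZ (fun i => (x i : ℂ)) R S else 0 := by
    intro k
    simp only [hg, finsetSum_coeff, coeff_monomial]
  obtain ⟨G, h1, h2, h3⟩ := mult_iter R g (by
      rw [← coeff_zero_eq_eval_zero, hc]
      simp [ZZ_empty]) (by
      intro t ht
      obtain ⟨l, hl, rfl⟩ := slit_sqrt ht
      have := ZZ_stable x hx l hl R (fun _ => l) (fun _ => hl)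
      have e : g.eval (l * l)
          = ev (fun S => l ^ S.card * ZZ (fun i => (x i : ℂ)) R S) (fun _ => l) := by
        simp only [hg, eval_finsetSum, eval_monomial, ev, prod_const]
        apply sum_congr rfl
        intro S _
        ring
      rw [e]
      exact this)
  refine ⟨G, ?_, h2, h3⟩
  intro k
  have hp : (∏ j ∈ range R, ((j + 2).ascFactorial k : ℂ)) ≠ 0 :=
    prod_ne_zero_iff.2 (fun j _ => asc_ne_zero (by omega) k)
  apply mul_left_cancel₀ hp
  rw [h1, hc]
  split_ifs with hk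
  · exact chain _ R k hk
  · rw [mul_zero]
    apply sum_eq_zero
    intro S _
    rw [if_neg]
    have := card_le_univ S
    omega

theorem JJ_rescale (A : PowerSeries ℂ) (r k : ℕ) :
    JJ (PowerSeries.rescale (-1) A) r k = (-1) ^ (k * r) * JJ A r k := by
  unfold JJ
  have e : (Matrix.of fun a b : Fin r =>
        PowerSeries.coeff (k + a) (PowerSeries.X ^ (b : ℕ) * PowerSeries.rescale (-1) A))
      = Matrix.of fun a b : Fin r => (-1 : ℂ) ^ (k + (a : ℕ)) *
        (Matrix.of fun a b : Fin r => (-1 : ℂ) ^ (b : ℕ) * (Matrix.of fun a b : Fin r =>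
          PowerSeries.coeff (k + a) (PowerSeries.X ^ (b : ℕ) * A)) a b) a b := by
    ext a b
    simp only [Matrix.of_apply, PowerSeries.coeff_X_pow_mul', PowerSeries.coeff_rescale]
    split_ifs with h
    · obtain ⟨c, hc⟩ := Nat.exists_eq_add_of_le h
      rw [hc, Nat.add_sub_cancel_left, pow_add]
      have : (-1 : ℂ) ^ (b : ℕ) * (-1) ^ (b : ℕ) = 1 := by
        rw [← mul_pow]; simp
      linear_combination (-((-1) ^ c * PowerSeries.coeff c A)) * this
    · simp
  rw [e, Matrix.det_mul_column, Matrix.det_mul_row, ← mul_assoc, ← prod_mul_distrib]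
  congr 1
  rw [prod_congr rfl (g := fun _ => (-1 : ℂ) ^ k)]
  · simp [pow_mul]
  · intro a _
    rw [pow_add, mul_assoc, ← mul_pow]
    simp

theorem JJ_C_mul (a : ℂ) (A : PowerSeries ℂ) (r k : ℕ) :
    JJ (PowerSeries.C a * A) r k = a ^ r * JJ A r k := by
  unfold JJ
  have e : (Matrix.of fun i j : Fin r =>
        PowerSeries.coeff (k + i) (PowerSeries.X ^ (j : ℕ) * (PowerSeries.C a * A)))
      = a • Matrix.of fun i j : Fin r =>
        PowerSeries.coeff (k + i) (PowerSeries.X ^ (j : ℕ) * A) := by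
    ext i j
    simp only [Matrix.of_apply, Matrix.smul_apply, smul_eq_mul]
    rw [mul_left_comm, PowerSeries.coeff_C_mul]
  rw [e, Matrix.det_smul, Fintype.card_fin]

omit [DecidableEq ι] in
theorem JJ_dual (x : ι → ℂ) (r k : ℕ) :
    JJ (∏ i, (1 + PowerSeries.C (x i) * PowerSeries.X)) r k = JJ (Hs x) k r := by
  have e : (∏ i, (1 + PowerSeries.C (x i) * PowerSeries.X)) = PowerSeries.rescale (-1) (As x) := by
    rw [As, map_prod]
    apply prod_congr rfl
    intro i _
    ext n
    simp only [PowerSeries.coeff_rescale, map_add, map_sub, PowerSeries.coeff_one,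
      PowerSeries.coeff_C_mul, PowerSeries.coeff_X]
    rcases n with _ | _ | n <;> simp
  have hA : PowerSeries.coeff 0 (As x) = 1 := by
    simp [As, map_prod]
  rw [e, JJ_rescale, jacobi _ _ (As_mul_Hs x) hA, ← mul_assoc, ← mul_pow]
  simp

theorem factor (p : ℝ[X]) (hp : ∀ k ≤ p.natDegree, 0 < p.coeff k)
    (hr : p.roots.card = p.natDegree) :
    ∃ (a : ℝ) (x : p.roots.ToType → ℝ), a ≠ 0 ∧ (∀ i, 0 < x i) ∧
      p = C a * ∏ i, (1 + C (x i) * X) := by
  have hneg : ∀ z ∈ p.roots, z < 0 := by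
    intro z hz
    by_contra h
    push Not at h
    have h1 : p.eval z = 0 := (mem_roots'.1 hz).2
    rw [eval_eq_sum_range, sum_range_succ'] at h1
    have h2 : 0 ≤ ∑ k ∈ range p.natDegree, p.coeff (k + 1) * z ^ (k + 1) := by
      apply sum_nonneg
      intro k hk
      have := hp (k + 1) (mem_range.1 hk)
      positivity
    have h3 := hp 0 (Nat.zero_le _)
    simp only [pow_zero, mul_one] at h1
    linarith
  have hneg' : ∀ i : p.roots.ToType, (i : ℝ) < 0 := fun i => hneg _ Multiset.coe_mem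
  refine ⟨p.leadingCoeff * ∏ i : p.roots.ToType, (-(i : ℝ)), fun i => -(i : ℝ)⁻¹, ?_, ?_, ?_⟩
  · apply mul_ne_zero (hp _ le_rfl).ne'
    exact prod_ne_zero_iff.2 (fun i _ => neg_ne_zero.2 (hneg' i).ne)
  · intro i
    exact neg_pos.2 (inv_lt_zero.2 (hneg' i))
  · have h := C_leadingCoeff_mul_prod_multiset_X_sub_C hr
    rw [← Multiset.map_univ p.roots (fun a => X - C a)] at h
    rw [map_mul, mul_assoc, map_prod, ← prod_mul_distrib]
    refine h.symm.trans ?_
    congr 1
    apply prod_congr rfl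
    intro i _
    rw [mul_add, ← mul_assoc, ← map_mul, neg_mul_neg, mul_inv_cancel₀ (hneg' i).ne, map_neg,
      map_one]
    ring

theorem fisk (p : ℝ[X]) (hp : ∀ k ≤ p.natDegree, 0 < p.coeff k)
    (hr : p.roots.card = p.natDegree) (R : ℕ) (q : ℝ[X])
    (hq : ∀ k, ((q.coeff k : ℝ) : ℂ) = if k ≤ p.natDegree then
      JJ ((p.map (algebraMap ℝ ℂ) : ℂ[X]) : PowerSeries ℂ) (R + 1) k else 0) :
    q.roots.card = q.natDegree ∧ ∀ x ∈ q.roots, x < 0 := by
  obtain ⟨a, x, ha, hx, hfac⟩ := factor p hp hr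
  have : DecidableEq p.roots.ToType := Classical.decEq _
  obtain ⟨G, h1, h2, h3⟩ := exists_G x hx R
  have hP : ((p.map (algebraMap ℝ ℂ) : ℂ[X]) : PowerSeries ℂ)
      = PowerSeries.C (a : ℂ) * ∏ i, (1 + PowerSeries.C (x i : ℂ) * PowerSeries.X) := by
    have := congrArg (fun u : ℝ[X] => Polynomial.coeToPowerSeries.ringHom (u.map (algebraMap ℝ ℂ)))
      hfac
    simp only [Polynomial.map_mul, Polynomial.map_prod, Polynomial.map_add, Polynomial.map_one,
      map_C, map_X, map_mul, map_prod, map_add, map_one] at this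
    simpa using this
  have hqG : q.map (algebraMap ℝ ℂ) = C ((a : ℂ) ^ (R + 1)) * G := by
    ext k
    rw [coeff_map, coeff_C_mul, h1, Multiset.card_coe, hr]
    refine (hq k).trans ?_
    split_ifs
    · rw [hP, JJ_C_mul, JJ_dual]
    · simp
  have ha' : (a : ℂ) ^ (R + 1) ≠ 0 := pow_ne_zero _ (by exact_mod_cast ha)
  have hroot : ∀ z : ℂ, (q.map (algebraMap ℝ ℂ)).eval z = 0 → z.im = 0 ∧ z.re < 0 := by
    intro z hz
    rw [hqG, eval_mul, eval_C] at hz
    have hz' := (mul_eq_zero.1 hz).resolve_left ha'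
    have hs : ¬ Slit z := fun h => h3 z h hz'
    unfold Slit at hs
    push Not at hs
    refine ⟨hs.2, lt_of_le_of_ne hs.1 ?_⟩
    intro h
    have : z = 0 := Complex.ext h hs.2
    exact h2 (this ▸ hz')
  constructor
  · rw [← splits_iff_card_roots]
    apply Splits.of_splits_map_of_injective (i := algebraMap ℝ ℂ) (algebraMap ℝ ℂ).injective
      (IsAlgClosed.splits _)
    intro z hz
    exact ⟨z.re, Complex.ext (by simp) (by simp [(hroot z (mem_roots'.1 hz).2).1])⟩
  · intro z hz
    have h : q.eval z = 0 := (mem_roots'.1 hz).2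
    have := hroot (algebraMap ℝ ℂ z) (by rw [eval_map_algebraMap, aeval_algebraMap_apply]; simp [h])
    simpa using this.2

end Pool.Agent.Lib.MP_675d17_an
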