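import Pool.Agent.Lib.MP_675d17_an.Key

set_option autoImplicit false

namespace Pool.Agent.Lib.MP_675d17_an

open MvPolynomial Filter Topology

/-- Monomials in the three variables. -/
noncomputable def mono (a b c : ℕ) : P3 := X 0 ^ a * X 1 ^ b * X 2 ^ c

theorem gen_mono (θ a b c : ℕ) : gen θ (mono a b c) =
    ((a * b : ℕ) : ℂ) • mono (a - 1) (b - 1) c
      + ((c * (θ + a + b + (c - 1)) : ℕ) : ℂ) • mono a b (c - 1) := by
  have p01 : pderiv 0 (X 1 : P3) = 0 := pderiv_X_of_ne (by decide)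
  have p02 : pderiv 0 (X 2 : P3) = 0 := pderiv_X_of_ne (by decide)
  have p10 : pderiv 1 (X 0 : P3) = 0 := pderiv_X_of_ne (by decide)
  have p12 : pderiv 1 (X 2 : P3) = 0 := pderiv_X_of_ne (by decide)
  have p20 : pderiv 2 (X 0 : P3) = 0 := pderiv_X_of_ne (by decide)
  have p21 : pderiv 2 (X 1 : P3) = 0 := pderiv_X_of_ne (by decide)
  have d0 : ∀ a b c : ℕ, pderiv 0 (mono a b c) = (a : P3) * mono (a - 1) b c := by
    intro a b c
    simp only [mono, pderiv_mul, pderiv_pow, p01, p02, pderiv_X_self]; ring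
  have d1 : ∀ a b c : ℕ, pderiv 1 (mono a b c) = (b : P3) * mono a (b - 1) c := by
    intro a b c
    simp only [mono, pderiv_mul, pderiv_pow, p10, p12, pderiv_X_self]; ring
  have d2 : ∀ a b c : ℕ, pderiv 2 (mono a b c) = (c : P3) * mono a b (c - 1) := by
    intro a b c
    simp only [mono, pderiv_mul, pderiv_pow, p20, p21, pderiv_X_self]; ring
  have dn : ∀ (i : Fin 3) (m : ℕ) (U : P3), pderiv i ((m : P3) * U) = (m : P3) * pderiv i U := by
    intro i m U
    rw [← map_natCast (C : ℂ →+* P3), pderiv_C_mul]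
  have x0 : ∀ a b c : ℕ, X 0 * ((a : P3) * mono (a - 1) b c) = (a : P3) * mono a b c := by
    intro a b c
    cases a with
    | zero => simp
    | succ a => simp only [mono, Nat.add_sub_cancel]; ring
  have x1 : ∀ a b c : ℕ, X 1 * ((b : P3) * mono a (b - 1) c) = (b : P3) * mono a b c := by
    intro a b c
    cases b with
    | zero => simp
    | succ b => simp only [mono, Nat.add_sub_cancel]; ring
  have x2 : ∀ a b c : ℕ, X 2 * ((c : P3) * mono a b (c - 1)) = (c : P3) * mono a b c := by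
    intro a b c
    cases c with
    | zero => simp
    | succ c => simp only [mono, Nat.add_sub_cancel]; ring
  rw [gen_apply]
  simp only [d0, d1, d2, dn]
  rw [mul_left_comm (X 0), mul_left_comm (X 1), mul_left_comm (X 2), x0, x1, x2,
    smul_eq_C_mul, smul_eq_C_mul]
  simp only [map_natCast]
  push_cast
  ring

/-- Polynomials of total degree less than `m`. -/
noncomputable def Deg (m : ℕ) : Submodule ℂ P3 :=
  Submodule.span ℂ {U | ∃ a b c : ℕ, a + b + c < m ∧ U = mono a b c}

theorem mono_mem {a b c m : ℕ} (h : a + b + c < m) : mono a b c ∈ Deg m :=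
  Submodule.subset_span ⟨a, b, c, h, rfl⟩

theorem Deg_mono {m m' : ℕ} (h : m ≤ m') : Deg m ≤ Deg m' := by
  apply Submodule.span_mono
  rintro U ⟨a, b, c, h1, rfl⟩
  exact ⟨a, b, c, by omega, rfl⟩

theorem Deg_zero {U : P3} (h : U ∈ Deg 0) : U = 0 := by
  have : Deg 0 = ⊥ := by
    unfold Deg
    rw [Submodule.span_eq_bot]
    rintro U ⟨a, b, c, h1, _⟩
    omega
  rwa [this, Submodule.mem_bot] at h

theorem gen_mem (θ : ℕ) {m : ℕ} {U : P3} (h : U ∈ Deg (m + 1)) : gen θ U ∈ Deg m := by
  induction h using Submodule.span_induction with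
  | mem U hU =>
    obtain ⟨a, b, c, h1, rfl⟩ := hU
    rw [gen_mono]
    apply Submodule.add_mem
    · rcases Nat.eq_zero_or_pos a with ha | ha
      · simp [ha]
      rcases Nat.eq_zero_or_pos b with hb | hb
      · simp [hb]
      exact Submodule.smul_mem _ _ (mono_mem (by omega))
    · rcases Nat.eq_zero_or_pos c with hc | hc
      · simp [hc]
      exact Submodule.smul_mem _ _ (mono_mem (by omega))
  | zero => simp
  | add U V _ _ hU hV => rw [map_add]; exact Submodule.add_mem _ hU hV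
  | smul c U _ hU => rw [map_smul]; exact Submodule.smul_mem _ _ hU

theorem gen_pow_mem (θ : ℕ) (j : ℕ) : ∀ {m : ℕ} {U : P3}, U ∈ Deg (m + j) →
    ((gen θ) ^ j) U ∈ Deg m := by
  induction j with
  | zero => intro m U h; simpa using h
  | succ j ih =>
    intro m U h
    rw [pow_succ, Module.End.mul_apply]
    exact ih (gen_mem θ h)

theorem gen_pow_mem' (θ : ℕ) (j : ℕ) {m : ℕ} {U : P3} (h : U ∈ Deg (m + 1)) :
    ((gen θ) ^ (j + 1)) U ∈ Deg m := by
  induction j with
  | zero => simpa using gen_mem θ h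
  | succ j ih =>
    rw [pow_succ', Module.End.mul_apply]
    exact gen_mem θ (Deg_mono (Nat.le_succ m) ih)

theorem mem_Deg_of_totalDegree {U : P3} {m : ℕ} (h : U.totalDegree < m) : U ∈ Deg m := by
  rw [U.as_sum]
  apply Submodule.sum_mem
  intro s hs
  have h1 := le_totalDegree hs
  rw [Finsupp.sum_fintype _ _ (by simp), Fin.sum_univ_three] at h1
  have e : monomial s (coeff s U) = (coeff s U) • mono (s 0) (s 1) (s 2) := by
    rw [monomial_eq, Finsupp.prod_fintype _ _ (by simp), Fin.prod_univ_three, smul_eq_C_mul, mono]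
  rw [e]
  exact Submodule.smul_mem _ _ (mono_mem (by omega))

theorem Deg_bound {m : ℕ} {U : P3} (h : U ∈ Deg m) :
    ∃ K : ℝ, 0 ≤ K ∧ ∀ v : Fin 3 → ℂ, ‖eval v U‖ * (1 + ‖v‖) ≤ K * (1 + ‖v‖) ^ m := by
  induction h using Submodule.span_induction with
  | mem U hU =>
    obtain ⟨a, b, c, h1, rfl⟩ := hU
    refine ⟨1, zero_le_one, fun v => ?_⟩
    have hv : ∀ i, ‖v i‖ ≤ 1 + ‖v‖ := fun i => (norm_le_pi_norm v i).trans (by linarith)
    have h2 : (1 : ℝ) ≤ 1 + ‖v‖ := by linarith [norm_nonneg v]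
    simp only [mono, map_mul, map_pow, eval_X, norm_mul, norm_pow, one_mul]
    calc ‖v 0‖ ^ a * ‖v 1‖ ^ b * ‖v 2‖ ^ c * (1 + ‖v‖)
        ≤ (1 + ‖v‖) ^ a * (1 + ‖v‖) ^ b * (1 + ‖v‖) ^ c * (1 + ‖v‖) := by
          gcongr <;> apply hv
      _ = (1 + ‖v‖) ^ (a + b + c + 1) := by ring
      _ ≤ (1 + ‖v‖) ^ m := pow_le_pow_right₀ h2 (by omega)
  | zero => exact ⟨0, le_rfl, fun v => by simp⟩
  | add U V _ _ hU hV =>
    obtain ⟨K1, h1, hU⟩ := hU
    obtain ⟨K2, h2, hV⟩ := hV
    refine ⟨K1 + K2, by positivity, fun v => ?_⟩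
    rw [map_add]
    have := norm_add_le (eval v U) (eval v V)
    have h3 : (0 : ℝ) ≤ 1 + ‖v‖ := by positivity
    nlinarith [hU v, hV v]
  | smul c U _ hU =>
    obtain ⟨K, h1, hU⟩ := hU
    refine ⟨‖c‖ * K, by positivity, fun v => ?_⟩
    rw [smul_eval, norm_mul, mul_assoc, mul_assoc]
    exact mul_le_mul_of_nonneg_left (hU v) (norm_nonneg c)

/-- The flow of the generator, truncated where it vanishes. -/
noncomputable def flow (θ n : ℕ) (P : P3) (s : ℝ) : P3 :=
  ∑ j ∈ Finset.range (n + 1), ((s ^ j / (j.factorial : ℝ) : ℝ) : ℂ) • ((gen θ) ^ j) P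

theorem eval_flow (θ n : ℕ) (P : P3) (s : ℝ) (v : Fin 3 → ℂ) : eval v (flow θ n P s) =
    ∑ j ∈ Finset.range (n + 1), ((s ^ j / (j.factorial : ℝ) : ℝ) : ℂ) * eval v (((gen θ) ^ j) P) := by
  simp only [flow, map_sum, smul_eval]

theorem eval_flow' (θ n : ℕ) (P : P3) (s : ℝ) (v : Fin 3 → ℂ) : eval v (flow θ n P s) =
    ∑ j ∈ Finset.range n, ((s ^ (j + 1) / ((j + 1).factorial : ℝ) : ℝ) : ℂ)
      * eval v (((gen θ) ^ (j + 1)) P) + eval v P := by
  rw [eval_flow, Finset.sum_range_succ']
  simp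

theorem flow_zero (θ n : ℕ) (P : P3) (v : Fin 3 → ℂ) : eval v (flow θ n P 0) = eval v P := by
  rw [eval_flow']; simp

theorem flow_deriv (θ n : ℕ) (P : P3) (hP : P ∈ Deg (n + 1)) (s : ℝ) (v : Fin 3 → ℂ) :
    HasDerivAt (fun s => eval v (flow θ n P s)) (eval v (gen θ (flow θ n P s))) s := by
  have hz : ((gen θ) ^ (n + 1)) P = 0 := Deg_zero (gen_pow_mem θ (n + 1) (by simpa using hP))
  have e : eval v (gen θ (flow θ n P s)) = ∑ j ∈ Finset.range n,
      ((s ^ j / (j.factorial : ℝ) : ℝ) : ℂ) * eval v (((gen θ) ^ (j + 1)) P) := by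
    simp only [flow, map_sum, map_smul, smul_eval]
    rw [Finset.sum_range_succ]
    simp only [← Module.End.mul_apply, ← pow_succ', hz, map_zero, mul_zero, add_zero]
  rw [e]
  simp only [eval_flow']
  apply HasDerivAt.add_const
  apply HasDerivAt.fun_sum
  intro j _
  apply HasDerivAt.mul_const
  apply HasDerivAt.ofReal_comp
  have h1 := (hasDerivAt_pow (j + 1) s).div_const ((j + 1).factorial : ℝ)
  have e2 : ((j + 1 : ℕ) : ℝ) * s ^ (j + 1 - 1) / ((j + 1).factorial : ℝ)
      = s ^ j / (j.factorial : ℝ) := by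
    rw [Nat.factorial_succ, Nat.add_sub_cancel]
    have : ((j.factorial : ℕ) : ℝ) ≠ 0 := by exact_mod_cast j.factorial_ne_zero
    push_cast
    field_simp
  rwa [e2] at h1

theorem flow_cont (θ n : ℕ) (P : P3) :
    Continuous (fun p : ℝ × (Fin 3 → ℂ) => eval p.2 (flow θ n P p.1)) := by
  simp only [eval_flow]
  apply continuous_finsetSum
  intro j _
  apply Continuous.mul
  · fun_prop
  · exact (continuous_eval _).comp continuous_snd

theorem flow_bound (θ n : ℕ) (P : P3) (hP : P ∈ Deg (n + 1)) :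
    ∃ K : ℝ, 0 ≤ K ∧ ∀ s ∈ Set.Icc (0 : ℝ) 1, ∀ v : Fin 3 → ℂ,
      ‖eval v (flow θ n P s) - eval v P‖ * (1 + ‖v‖) ≤ K * (1 + ‖v‖) ^ n := by
  have h1 : ∀ j : ℕ, ∃ K : ℝ, 0 ≤ K ∧ ∀ v : Fin 3 → ℂ,
      ‖eval v (((gen θ) ^ (j + 1)) P)‖ * (1 + ‖v‖) ≤ K * (1 + ‖v‖) ^ n :=
    fun j => Deg_bound (gen_pow_mem' θ j hP)
  choose K hK0 hK using h1
  refine ⟨∑ j ∈ Finset.range n, K j, Finset.sum_nonneg (fun j _ => hK0 j), ?_⟩
  intro s hs v
  rw [eval_flow', add_sub_cancel_right, Finset.sum_mul]
  have h3 : (0 : ℝ) ≤ 1 + ‖v‖ := by positivity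
  refine le_trans (mul_le_mul_of_nonneg_right (norm_sum_le _ _) h3) ?_
  rw [Finset.sum_mul]
  apply Finset.sum_le_sum
  intro j _
  refine le_trans ?_ (hK j v)
  rw [norm_mul]
  apply mul_le_mul_of_nonneg_right _ h3
  apply mul_le_of_le_one_left (norm_nonneg _)
  rw [Complex.norm_real, Real.norm_eq_abs, abs_of_nonneg (by have := hs.1; positivity)]
  apply div_le_one_of_le₀ _ (by positivity)
  have h4 : (1 : ℝ) ≤ ((j + 1).factorial : ℝ) := by exact_mod_cast Nat.factorial_pos (j + 1)
  exact (pow_le_one₀ hs.1 hs.2).trans h4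

theorem isClosed_Om : IsClosed Om := by
  have h1 : IsClosed {v : Fin 3 → ℂ | 0 ≤ (v 0).re} := isClosed_le continuous_const (by fun_prop)
  have h2 : IsClosed {v : Fin 3 → ℂ | 0 ≤ (v 1).re} := isClosed_le continuous_const (by fun_prop)
  have h3 : IsClosed {v : Fin 3 → ℂ |
      ‖v 2 - v 0 * v 1‖ - (v 2 - v 0 * v 1).re ≤ 2 * ((v 0).re * (v 1).re)} :=
    isClosed_le (by fun_prop) (by fun_prop)
  exact h1.inter (h2.inter h3)

theorem zero_mem_Om : (0 : Fin 3 → ℂ) ∈ Om := by simp [Om]

/-- The minimum modulus principle for the flow. -/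
theorem heat (θ : ℕ) (hθ : 2 ≤ θ) (n : ℕ) (P : P3) (hP : P ∈ Deg (n + 1)) (c : ℝ) (hc : 0 < c)
    (hlow : ∀ v ∈ Om, c * (1 + ‖v‖) ^ n ≤ ‖eval v P‖) : eval 0 (flow θ n P 1) ≠ 0 := by
  set g : ℝ × (Fin 3 → ℂ) → ℝ :=
    fun p => Real.exp p.1 * Complex.normSq (eval p.2 (flow θ n P p.1)) with hg
  have hgc : Continuous g :=
    (Real.continuous_exp.comp continuous_fst).mul
      (Complex.continuous_normSq.comp (flow_cont θ n P))
  set Z : Set (ℝ × (Fin 3 → ℂ)) := {p | p.1 ∈ Set.Icc (0 : ℝ) 1 ∧ p.2 ∈ Om ∧ g p ≤ c ^ 2 / 8}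
    with hZ
  have hZclosed : IsClosed Z := by
    apply IsClosed.inter (isClosed_Icc.preimage continuous_fst)
    apply IsClosed.inter (isClosed_Om.preimage continuous_snd)
    exact isClosed_le hgc continuous_const
  obtain ⟨K, hK0, hK⟩ := flow_bound θ n P hP
  have hZbdd : Bornology.IsBounded Z := by
    apply (Metric.isBounded_Icc (0 : ℝ) 1).prod (Metric.isBounded_closedBall
      (x := (0 : Fin 3 → ℂ)) (r := 2 * K / c)) |>.subset
    rintro ⟨s, v⟩ ⟨h1, h2, h3⟩
    refine ⟨h1, ?_⟩
    simp only [Metric.mem_closedBall, dist_zero_right]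
    by_contra hcon
    push Not at hcon
    have hN : (1 : ℝ) ≤ 1 + ‖v‖ := by linarith [norm_nonneg v]
    have hNn : (1 : ℝ) ≤ (1 + ‖v‖) ^ n := one_le_pow₀ hN
    have h4 := hK s h1 v
    have h5 := hlow v h2
    have h6 : 2 * K < c * (1 + ‖v‖) := by
      rw [div_lt_iff₀ hc] at hcon
      nlinarith
    have h7 : ‖eval v (flow θ n P s) - eval v P‖ ≤ c / 2 * (1 + ‖v‖) ^ n := by
      have h8 : K * (1 + ‖v‖) ^ n ≤ (c / 2 * (1 + ‖v‖) ^ n) * (1 + ‖v‖) := by nlinarith
      exact le_of_mul_le_mul_right (h4.trans h8) (by linarith)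
    have h8 : ‖eval v P‖ ≤ ‖eval v (flow θ n P s)‖ + ‖eval v (flow θ n P s) - eval v P‖ := by
      have := norm_sub_le (eval v (flow θ n P s)) (eval v (flow θ n P s) - eval v P)
      simpa using this
    have h9 : c / 2 ≤ ‖eval v (flow θ n P s)‖ := by nlinarith
    have h10 : (1 : ℝ) ≤ Real.exp s := Real.one_le_exp h1.1
    simp only [hg, Complex.normSq_eq_norm_sq] at h3
    have h11 : (c / 2) ^ 2 ≤ ‖eval v (flow θ n P s)‖ ^ 2 := by gcongr
    nlinarith
  have hZcpt : IsCompact Z := Metric.isCompact_of_isClosed_isBounded hZclosed hZbdd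
  have hZe : Z = ∅ := by
    by_contra hne
    obtain ⟨⟨s₀, v₀⟩, ⟨hs₀, hv₀, hg₀⟩, hmin⟩ :=
      hZcpt.exists_isMinOn (Set.nonempty_iff_ne_empty.2 hne) continuous_fst.continuousOn
    simp only at hs₀ hv₀
    have hpos : 0 < s₀ := by
      rcases hs₀.1.lt_or_eq with h | h
      · exact h
      · exfalso
        subst h
        have h5 := hlow v₀ hv₀
        have hN : (1 : ℝ) ≤ 1 + ‖v₀‖ := by linarith [norm_nonneg v₀]
        have hNn : (1 : ℝ) ≤ (1 + ‖v₀‖) ^ n := one_le_pow₀ hN
        simp only [hg, Real.exp_zero, one_mul, flow_zero, Complex.normSq_eq_norm_sq] at hg₀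
        have h6 : c ≤ ‖eval v₀ P‖ := by nlinarith
        have h7 : c ^ 2 ≤ ‖eval v₀ P‖ ^ 2 := by gcongr
        nlinarith
    have hbefore : ∀ v ∈ Om, ∀ᶠ s in 𝓝[<] s₀, c ^ 2 / 8 < g (s, v) := by
      intro v hv
      filter_upwards [Ioo_mem_nhdsLT hpos] with s hs
      by_contra hcon
      push Not at hcon
      have : (s, v) ∈ Z := ⟨⟨hs.1.le, hs.2.le.trans hs₀.2⟩, hv, hcon⟩
      have h1 := hmin this
      simp only [Set.mem_ofPred_eq] at h1
      linarith [hs.2]
    have hat : ∀ v ∈ Om, c ^ 2 / 8 ≤ g (s₀, v) := by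
      intro v hv
      have h1 : Tendsto (fun s => g (s, v)) (𝓝[<] s₀) (𝓝 (g (s₀, v))) :=
        ((hgc.comp (continuous_id.prodMk continuous_const)).tendsto s₀).mono_left
          nhdsWithin_le_nhds
      exact ge_of_tendsto h1 ((hbefore v hv).mono (fun s hs => hs.le))
    set U := flow θ n P s₀ with hU
    have hE : 0 < Real.exp s₀ := Real.exp_pos s₀
    have hUne : ∀ v ∈ Om, eval v U ≠ 0 := by
      intro v hv h0
      have := hat v hv
      simp only [hg, ← hU, h0, map_zero, mul_zero] at this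
      nlinarith
    have hUmin : ∀ v ∈ Om, ‖eval v₀ U‖ ≤ ‖eval v U‖ := by
      intro v hv
      have h1 := hg₀.trans (hat v hv)
      simp only [hg, ← hU, Complex.normSq_eq_norm_sq] at h1
      have h2 := le_of_mul_le_mul_left h1 hE
      exact (abs_le_of_sq_le_sq' h2 (norm_nonneg _)).2
    have hkey := key_point θ hθ hUne hv₀ hUmin
    have hd := flow_deriv θ n P hP s₀ v₀
    rw [← hU] at hd
    set u := eval v₀ U with hu
    set u' := eval v₀ (gen θ U) with hu'
    have hu0 : u ≠ 0 := hUne v₀ hv₀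
    have hre : HasDerivAt (fun s => (eval v₀ (flow θ n P s)).re) u'.re s₀ :=
      Complex.reCLM.hasFDerivAt.comp_hasDerivAt s₀ hd
    have him : HasDerivAt (fun s => (eval v₀ (flow θ n P s)).im) u'.im s₀ :=
      Complex.imCLM.hasFDerivAt.comp_hasDerivAt s₀ hd
    have hD : HasDerivAt (fun s => g (s, v₀))
        (Real.exp s₀ * (u.re * u.re + u.im * u.im)
          + Real.exp s₀ * ((u'.re * u.re + u.re * u'.re) + (u'.im * u.im + u.im * u'.im))) s₀ := by
      have := (Real.hasDerivAt_exp s₀).mul ((hre.mul hre).add (him.mul him))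
      simp only [hg, Complex.normSq_apply]
      exact this
    have hN : 0 < Complex.normSq u := Complex.normSq_pos.2 hu0
    have hDpos : 0 < Real.exp s₀ * (u.re * u.re + u.im * u.im)
          + Real.exp s₀ * ((u'.re * u.re + u.re * u'.re) + (u'.im * u.im + u.im * u'.im)) := by
      rw [Complex.div_re, ← add_div] at hkey
      have h1 : 0 ≤ u'.re * u.re + u'.im * u.im := by
        by_contra hneg
        push Not at hneg
        linarith [div_neg_of_neg_of_pos hneg hN]
      rw [Complex.normSq_apply] at hN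
      have h2 : 0 ≤ (u'.re * u.re + u.re * u'.re) + (u'.im * u.im + u.im * u'.im) := by linarith
      positivity
    have hsl := (hasDerivAt_iff_tendsto_slope_left_right.1 hD).1
    have hev := hsl.eventually (lt_mem_nhds hDpos)
    obtain ⟨s, ⟨hs1, hs2⟩, hs3⟩ := ((hev.and (hbefore v₀ hv₀)).and
      (self_mem_nhdsWithin (a := s₀) (s := Set.Iio s₀))).exists
    have hs3' : s < s₀ := hs3
    rw [slope_def_field] at hs1
    have h1 : g (s, v₀) - g (s₀, v₀) < 0 := by
      by_contra hcon
      push Not at hcon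
      have := div_nonpos_of_nonneg_of_nonpos hcon (by linarith : s - s₀ ≤ 0)
      linarith
    linarith
  intro h0
  have : ((1 : ℝ), (0 : Fin 3 → ℂ)) ∈ Z := by
    refine ⟨⟨zero_le_one, le_rfl⟩, zero_mem_Om, ?_⟩
    simp only [hg, h0, map_zero, mul_zero]
    positivity
  rw [hZe] at this
  exact this

/-- The value of the limiting functional on a monomial. -/
def val (θ a b c : ℕ) : ℕ := if a = b then a.factorial * (θ + a).ascFactorial c else 0

theorem eval_gen_pow_mono (θ : ℕ) (j : ℕ) : ∀ a b c : ℕ,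
    eval 0 (((gen θ) ^ j) (mono a b c))
      = if j = a + c then ((j.factorial * val θ a b c : ℕ) : ℂ) else 0 := by
  induction j with
  | zero =>
    intro a b c
    simp only [pow_zero, Module.End.one_apply, mono, map_mul, map_pow, eval_X, Pi.zero_apply, val]
    rcases a with _ | a <;> rcases b with _ | b <;> rcases c with _ | c <;> simp
  | succ j ih =>
    intro a b c
    rw [pow_succ, Module.End.mul_apply, gen_mono, map_add, map_smul, map_smul, map_add, smul_eval,
      smul_eval, ih, ih]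
    have key : (a * b) * (if j = a - 1 + c then j.factorial * val θ (a - 1) (b - 1) c else 0)
        + (c * (θ + a + b + (c - 1))) *
          (if j = a + (c - 1) then j.factorial * val θ a b (c - 1) else 0)
        = if j + 1 = a + c then (j + 1).factorial * val θ a b c else 0 := by
      by_cases hab : a = b
      · subst hab
        rcases a with _ | a <;> rcases c with _ | c
        · simp
        · simp only [val, Nat.add_sub_cancel, if_true, zero_add, add_zero, Nat.factorial_zero,
            zero_mul, one_mul, Nat.add_right_cancel_iff]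
          split_ifs with h
          · subst h
            rw [Nat.factorial_succ, Nat.ascFactorial_succ]; ring
          · simp
        · simp only [val, Nat.add_sub_cancel, if_true, add_zero, zero_mul,
            Nat.add_right_cancel_iff, Nat.ascFactorial_zero]
          split_ifs with h
          · subst h
            rw [Nat.factorial_succ]; ring
          · simp
        · simp only [val, Nat.add_sub_cancel, if_true]
          by_cases h : j = a + c + 1
          · subst h
            rw [if_pos (by omega), if_pos (by omega), if_pos (by omega)]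
            rw [asc_succ_left (θ + a) c, Nat.ascFactorial_succ, Nat.factorial_succ (a + c + 1),
              Nat.factorial_succ a, add_assoc θ a 1]
            ring
          · rw [if_neg (by omega), if_neg (by omega), if_neg (by omega)]
            simp
      · have h1 : val θ a b c = 0 := by simp [val, hab]
        have h2 : val θ a b (c - 1) = 0 := by simp [val, hab]
        have h3 : a * b * val θ (a - 1) (b - 1) c = 0 := by
          rcases a with _ | a
          · simp
          rcases b with _ | b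
          · simp
          have : a ≠ b := by omega
          simp [val, this]
        rw [h1, h2]
        split_ifs
        all_goals nlinarith
    have := congrArg (Nat.cast : ℕ → ℂ) key
    simpa only [Nat.cast_add, Nat.cast_mul, Nat.cast_ite, Nat.cast_zero] using this

theorem flow_one_mono (θ n a b c : ℕ) (h : a + c ≤ n) :
    eval 0 (flow θ n (mono a b c) 1) = val θ a b c := by
  rw [eval_flow, Finset.sum_eq_single (a + c)]
  · rw [eval_gen_pow_mono, if_pos rfl]
    have : (((a + c).factorial : ℕ) : ℂ) ≠ 0 := by exact_mod_cast (a + c).factorial_ne_zero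
    push_cast
    rw [one_pow]
    field_simp
  · intro j _ hj
    rw [eval_gen_pow_mono, if_neg hj, mul_zero]
  · intro hj
    exact absurd (Finset.mem_range.2 (by omega)) hj

/-- The limiting functional as a linear map. -/
noncomputable def Lam (θ n : ℕ) : P3 →ₗ[ℂ] ℂ where
  toFun P := eval 0 (flow θ n P 1)
  map_add' U V := by
    simp only [eval_flow, map_add, mul_add, Finset.sum_add_distrib]
  map_smul' c U := by
    simp only [eval_flow, map_smul, smul_eval, RingHom.id_apply, smul_eq_mul, Finset.mul_sum]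
    apply Finset.sum_congr rfl
    intro j _
    ring

theorem Lam_mono (θ n a b c : ℕ) (h : a + c ≤ n) : Lam θ n (mono a b c) = val θ a b c :=
  flow_one_mono θ n a b c h

theorem Lam_ne_zero (θ : ℕ) (hθ : 2 ≤ θ) (n : ℕ) (P : P3) (hP : P.totalDegree ≤ n) (c : ℝ)
    (hc : 0 < c) (hlow : ∀ v ∈ Om, c * (1 + ‖v‖) ^ n ≤ ‖eval v P‖) : Lam θ n P ≠ 0 :=
  heat θ hθ n P (mem_Deg_of_totalDegree (by omega)) c hc hlow

end Pool.Agent.Lib.MP_675d17_an
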