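import Pool.Agent.Lib.MP_675d17_an.Det

set_option autoImplicit false

namespace Pool.Agent.Lib.MP_675d17_an

open PowerSeries Finset

/-- matrix of the first coefficients of a family of series -/
noncomputable def Mat {N : ℕ} (c : Fin N → PowerSeries ℂ) : Matrix (Fin N) (Fin N) ℂ :=
  Matrix.of fun u v => coeff (u : ℕ) (c v)

theorem Mat_mul {N : ℕ} (A : PowerSeries ℂ) (hA : coeff 0 A = 1) (c : Fin N → PowerSeries ℂ) :
    (Mat (fun v => A * c v)).det = (Mat c).det := by
  have h := JJ_zero A hA N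
  unfold JJ at h
  have e : Mat (fun v => A * c v)
      = (Matrix.of fun a b : Fin N => coeff (0 + a) (X ^ (b : ℕ) * A)) * Mat c := by
    ext u v
    simp only [Mat, Matrix.mul_apply, Matrix.of_apply, zero_add]
    rw [Fin.sum_univ_eq_sum_range (fun w => coeff (u : ℕ) (X ^ w * A) * coeff w (c v)) N,
      mul_comm, coeff_mul, Nat.sum_antidiagonal_eq_sum_range_succ
        (fun i j => coeff i (c v) * coeff j A)]
    symm
    rw [← sum_subset (s₁ := range ((u : ℕ) + 1))]
    · apply sum_congr rfl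
      intro w hw
      rw [coeff_X_pow_mul', if_pos (Nat.lt_succ_iff.1 (mem_range.1 hw)), mul_comm]
    · intro w hw
      have := u.isLt
      simp only [mem_range] at hw ⊢
      omega
    · intro w _ hw
      rw [coeff_X_pow_mul', if_neg, zero_mul]
      simp only [mem_range] at hw
      omega
  rw [e, Matrix.det_mul, h, one_mul]

theorem Mat_blk (k r : ℕ) (f : Fin r → PowerSeries ℂ) :
    (Mat (fun v => Sum.elim (fun b : Fin k => X ^ (b : ℕ)) f (finSumFinEquiv.symm v))).det
      = (Matrix.of fun j i : Fin r => coeff (k + j) (f i)).det := by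
  have e : Mat (fun v => Sum.elim (fun b : Fin k => X ^ (b : ℕ)) f (finSumFinEquiv.symm v))
      = Matrix.reindex finSumFinEquiv finSumFinEquiv (Matrix.fromBlocks 1
        (Matrix.of fun (a : Fin k) (i : Fin r) => coeff (a : ℕ) (f i)) 0
        (Matrix.of fun j i : Fin r => coeff (k + j) (f i))) := by
    ext u v
    obtain ⟨u, rfl⟩ := finSumFinEquiv.surjective u
    obtain ⟨v, rfl⟩ := finSumFinEquiv.surjective v
    rcases u with u | u <;> rcases v with v | v
    · simp [Mat, coeff_X_pow, Matrix.one_apply, Fin.ext_iff]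
    · simp [Mat]
    · have := v.isLt
      simp [Mat, coeff_X_pow]
      omega
    · simp [Mat]
  rw [e, Matrix.det_reindex_self, Matrix.det_fromBlocks_zero₂₁, Matrix.det_one, one_mul]

theorem sign_shuffle (m n : ℕ) :
    (((Equiv.Perm.sign ((finSumFinEquiv.symm.trans <| (Equiv.sumComm (Fin n) (Fin m)).trans
      finSumFinEquiv).trans (finCongr (add_comm n m)).symm) : ℤˣ) : ℤ) : ℂ) = (-1) ^ (m * n) := by
  rw [Equiv.Perm.sign_eq_prod_prod_Ioi]
  dsimp
  simp only [Fin.cast_lt_cast, Units.coe_prod, apply_ite, Units.val_one, Units.val_neg,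
    Int.reduceNeg, Int.cast_prod, Int.cast_one, Int.cast_neg]
  simp_rw [← finSumFinEquiv.prod_comp, ← Finset.prod_map_equiv finSumFinEquiv.symm]
  simp only [Equiv.symm_apply_apply, ← Fin.val_fin_lt, Equiv.symm_symm, Function.comp_apply,
    ← Finset.prod_ite_mem_eq (Finset.map _ _), Finset.mem_map_equiv, Finset.mem_Ioi,
    Fintype.prod_sum_type, finSumFinEquiv_apply_left, Fin.val_castAdd, Sum.swap_inl,
    finSumFinEquiv_apply_right, Fin.val_natAdd, Sum.swap_inr, add_lt_add_iff_left,
    ← ite_not (α := ℂ) (p := _ < _) (y := 1), ← ite_and, and_not_self]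
  have h : ∀ (p : ℕ) (a b : Fin p), ¬ (a < b ∧ b ≤ a) := fun p a b h => absurd h.1 (not_lt.2 h.2)
  simp [(Fin.isLt _).trans_le, (Fin.isLt _).le.trans, pow_mul, h]

theorem jacobi (A B : PowerSeries ℂ) (hAB : A * B = 1) (hA : coeff 0 A = 1) (k r : ℕ) :
    JJ A r k = (-1) ^ (k * r) * JJ B k r := by
  set c1 : Fin (k + r) → PowerSeries ℂ := fun v =>
    Sum.elim (fun b : Fin k => X ^ (b : ℕ) * B) (fun i : Fin r => X ^ (i : ℕ))
      (finSumFinEquiv.symm v) with hc1
  have h1 := Mat_mul A hA c1
  have e1 : (fun v => A * c1 v) = fun v => Sum.elim (fun b : Fin k => X ^ (b : ℕ))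
      (fun i : Fin r => X ^ (i : ℕ) * A) (finSumFinEquiv.symm v) := by
    funext v
    obtain ⟨v, rfl⟩ := finSumFinEquiv.surjective v
    rcases v with v | v
    · simp only [hc1, Equiv.symm_apply_apply, Sum.elim_inl]
      rw [mul_left_comm, hAB, mul_one]
    · simp only [hc1, Equiv.symm_apply_apply, Sum.elim_inr]
      rw [mul_comm]
  have e2 : Mat c1 = (Mat (fun v => Sum.elim (fun i : Fin r => X ^ (i : ℕ))
      (fun b : Fin k => X ^ (b : ℕ) * B) (finSumFinEquiv.symm v))).reindex
      (finCongr (add_comm r k))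
      (finSumFinEquiv.symm.trans <| (Equiv.sumComm _ _).trans finSumFinEquiv) := by
    ext u v
    obtain ⟨v, rfl⟩ := finSumFinEquiv.surjective v
    rcases v with v | v <;> simp [Mat, hc1]
  rw [e1, Mat_blk, e2, Matrix.det_reindex, Mat_blk, sign_shuffle] at h1
  exact h1

end Pool.Agent.Lib.MP_675d17_an
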