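import Pool.Agent.Lib.MP_675d17_an.Basic

set_option autoImplicit false

namespace Pool.Agent.Lib.MP_675d17_an

open MvPolynomial

abbrev P3 := MvPolynomial (Fin 3) ℂ

/-- The generator of the flow. -/
noncomputable def gen (θ : ℕ) : P3 →ₗ[ℂ] P3 where
  toFun U := pderiv 0 (pderiv 1 U) + C (θ : ℂ) * pderiv 2 U + X 0 * pderiv 0 (pderiv 2 U)
    + X 1 * pderiv 1 (pderiv 2 U) + X 2 * pderiv 2 (pderiv 2 U)
  map_add' U V := by simp only [map_add]; ring
  map_smul' c U := by
    simp only [Derivation.map_smul, RingHom.id_apply, smul_add, mul_smul_comm]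

theorem gen_apply (θ : ℕ) (U : P3) : gen θ U =
    pderiv 0 (pderiv 1 U) + C (θ : ℂ) * pderiv 2 U + X 0 * pderiv 0 (pderiv 2 U)
    + X 1 * pderiv 1 (pderiv 2 U) + X 2 * pderiv 2 (pderiv 2 U) := rfl

/-- The closed domain. -/
def Om : Set (Fin 3 → ℂ) :=
  {v | 0 ≤ (v 0).re ∧ 0 ≤ (v 1).re ∧
    ‖v 2 - v 0 * v 1‖ - (v 2 - v 0 * v 1).re ≤ 2 * ((v 0).re * (v 1).re)}

theorem norm_sq_add_re (z : ℂ) : ‖-z ^ 2‖ - (-z ^ 2).re = 2 * z.re ^ 2 := by
  rw [norm_neg, norm_pow, ← Complex.normSq_eq_norm_sq, Complex.normSq_apply]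
  simp only [pow_two, Complex.neg_re, Complex.mul_re]
  ring

/-- The point of the domain over a point of the tube. -/
def pt (a b z : ℂ) : Fin 3 → ℂ := ![a, b, a * b - z ^ 2]

theorem pt_mem {a b z : ℂ} (ha : 0 ≤ a.re) (hb : 0 ≤ b.re) (hz : z.re ^ 2 ≤ a.re * b.re) :
    pt a b z ∈ Om := by
  refine ⟨by simpa [pt] using ha, by simpa [pt] using hb, ?_⟩
  have e : pt a b z 2 - pt a b z 0 * pt a b z 1 = -z ^ 2 := by simp [pt]
  rw [e, norm_sq_add_re]
  simp only [pt, Matrix.cons_val_zero, Matrix.cons_val_one]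
  linarith

theorem exists_pt {v : Fin 3 → ℂ} (hv : v ∈ Om) :
    ∃ a b z : ℂ, v = pt a b z ∧ 0 ≤ a.re ∧ 0 ≤ b.re ∧ z.re ^ 2 ≤ a.re * b.re := by
  obtain ⟨z, hz⟩ := IsAlgClosed.exists_pow_nat_eq (v 0 * v 1 - v 2) (n := 2) (by norm_num)
  refine ⟨v 0, v 1, z, ?_, hv.1, hv.2.1, ?_⟩
  · funext i
    fin_cases i <;> simp [pt, hz]
  · have h := hv.2.2
    have e : v 2 - v 0 * v 1 = -z ^ 2 := by rw [hz]; ring
    rw [e, norm_sq_add_re] at h
    linarith

theorem deriv_aeval (γ : Fin 3 → Polynomial ℂ) (U : P3) :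
    Polynomial.derivative (aeval γ U)
      = ∑ i, aeval γ (pderiv i U) * Polynomial.derivative (γ i) := by
  induction U using MvPolynomial.induction_on with
  | C a => simp
  | add p q hp hq => simp only [map_add, hp, hq, add_mul, Finset.sum_add_distrib]
  | mul_X p j hp =>
    have e : ∀ i : Fin 3, aeval γ (pderiv i (p * X j)) * Polynomial.derivative (γ i)
        = aeval γ (pderiv i p) * Polynomial.derivative (γ i) * γ j
          + (if i = j then aeval γ p * Polynomial.derivative (γ j) else 0) := by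
      intro i
      rw [pderiv_mul]
      by_cases hij : i = j
      · subst hij
        simp only [pderiv_X_self, map_add, map_mul, aeval_X, mul_one, if_true]
        ring
      · rw [pderiv_X_of_ne (Ne.symm hij)]
        simp only [map_add, map_mul, aeval_X, mul_zero, if_neg hij, map_zero]
        ring
    simp only [e, Finset.sum_add_distrib, Finset.sum_ite_eq', Finset.mem_univ, if_true]
    rw [map_mul, aeval_X, Polynomial.derivative_mul, hp, Finset.sum_mul]

theorem eval_aeval (γ : Fin 3 → Polynomial ℂ) (U : P3) (t : ℂ) :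
    Polynomial.eval t (aeval γ U) = eval (fun i => (γ i).eval t) U := by
  induction U using MvPolynomial.induction_on with
  | C a => simp
  | add p q hp hq => simp only [map_add, Polynomial.eval_add, hp, hq]
  | mul_X p j hp => simp only [map_mul, aeval_X, Polynomial.eval_mul, hp, eval_X]

/-- The curve over a line of the tube. -/
noncomputable def crv (ξ η z a b d : ℂ) : Fin 3 → Polynomial ℂ :=
  ![Polynomial.C ξ + Polynomial.C a * Polynomial.X, Polynomial.C η + Polynomial.C b * Polynomial.X,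
    (Polynomial.C ξ + Polynomial.C a * Polynomial.X) * (Polynomial.C η + Polynomial.C b * Polynomial.X)
      - (Polynomial.C z + Polynomial.C d * Polynomial.X) ^ 2]

theorem crv_eval (ξ η z a b d t : ℂ) :
    (fun i => (crv ξ η z a b d i).eval t) = pt (ξ + a * t) (η + b * t) (z + d * t) := by
  funext i
  fin_cases i <;> simp [crv, pt]

theorem line_eval (U : P3) (ξ η z a b d t : ℂ) :
    (aeval (crv ξ η z a b d) U).eval t = eval (pt (ξ + a * t) (η + b * t) (z + d * t)) U := by
  rw [eval_aeval, crv_eval]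

theorem line_eval_zero (U : P3) (ξ η z a b d : ℂ) :
    (aeval (crv ξ η z a b d) U).eval 0 = eval (pt ξ η z) U := by
  rw [line_eval]; simp

/-- First derivative along a line. -/
noncomputable def D1 (U : P3) (ξ η z a b d : ℂ) : ℂ :=
  a * eval (pt ξ η z) (pderiv 0 U) + b * eval (pt ξ η z) (pderiv 1 U)
    + (a * η + b * ξ - 2 * d * z) * eval (pt ξ η z) (pderiv 2 U)

theorem line_deriv (U : P3) (ξ η z a b d : ℂ) :
    Polynomial.derivative (aeval (crv ξ η z a b d) U) =
      aeval (crv ξ η z a b d) (pderiv 0 U) * Polynomial.C a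
      + aeval (crv ξ η z a b d) (pderiv 1 U) * Polynomial.C b
      + aeval (crv ξ η z a b d) (pderiv 2 U) *
        (Polynomial.C (a * η + b * ξ - 2 * d * z) + Polynomial.C (2 * a * b - 2 * d ^ 2) * Polynomial.X) := by
  rw [deriv_aeval, Fin.sum_univ_three]
  congr 1
  · congr 1 <;> simp [crv]
  · congr 1
    simp only [crv, Matrix.cons_val, Polynomial.derivative_sub, Polynomial.derivative_mul,
      Polynomial.derivative_add, Polynomial.derivative_C, Polynomial.derivative_X,
      Polynomial.derivative_pow, map_sub, map_add, map_mul, map_pow, map_ofNat, map_natCast]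
    push_cast
    ring

theorem line_deriv_zero (U : P3) (ξ η z a b d : ℂ) :
    (Polynomial.derivative (aeval (crv ξ η z a b d) U)).eval 0 = D1 U ξ η z a b d := by
  rw [line_deriv]
  simp only [Polynomial.eval_add, Polynomial.eval_mul, line_eval_zero, Polynomial.eval_C,
    Polynomial.eval_X, D1]
  ring

theorem line_deriv2_zero (U : P3) (ξ η z a b d : ℂ) :
    (Polynomial.derivative (Polynomial.derivative (aeval (crv ξ η z a b d) U))).eval 0 =
      a * D1 (pderiv 0 U) ξ η z a b d + b * D1 (pderiv 1 U) ξ η z a b d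
      + (a * η + b * ξ - 2 * d * z) * D1 (pderiv 2 U) ξ η z a b d
      + (2 * a * b - 2 * d ^ 2) * eval (pt ξ η z) (pderiv 2 U) := by
  rw [line_deriv]
  simp only [Polynomial.derivative_add, Polynomial.derivative_mul, Polynomial.derivative_C,
    Polynomial.derivative_X, Polynomial.eval_add, Polynomial.eval_mul, line_eval_zero,
    line_deriv_zero, Polynomial.eval_C, Polynomial.eval_X, Polynomial.eval_zero,
    Polynomial.eval_one]
  ring

theorem pderiv_comm' (i j : Fin 3) (U : P3) : pderiv i (pderiv j U) = pderiv j (pderiv i U) := by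
  induction U using MvPolynomial.induction_on with
  | C a => simp
  | add p q hp hq => simp only [map_add, hp, hq]
  | mul_X p l hp =>
    simp only [Derivation.leibniz, smul_eq_mul, map_add, hp, pderiv_X]
    have h1 : ∀ m : Fin 3, pderiv m (Pi.single (M := fun _ => P3) j 1 l) = 0 := by
      intro m
      by_cases h : l = j
      · subst h; simp
      · simp [Pi.single_eq_of_ne h]
    have h2 : ∀ m : Fin 3, pderiv m (Pi.single (M := fun _ => P3) i 1 l) = 0 := by
      intro m
      by_cases h : l = i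
      · subst h; simp
      · simp [Pi.single_eq_of_ne h]
    rw [h1, h2]
    ring

theorem cone_step {A B p l s : ℝ} (hA : 0 ≤ A) (hB : 0 ≤ B) (hp : p ^ 2 ≤ A * B) (hs : 0 ≤ s) :
    (p + l * s) ^ 2 ≤ (A + l ^ 2 * s) * (B + s) := by
  have h1 : 2 * l * p ≤ A + l ^ 2 * B := by
    have h2 : 0 ≤ A + l ^ 2 * B := by positivity
    have h3 : (2 * l * p) ^ 2 ≤ (A + l ^ 2 * B) ^ 2 := by
      have h4 : l ^ 2 * p ^ 2 ≤ l ^ 2 * (A * B) := mul_le_mul_of_nonneg_left hp (sq_nonneg l)
      nlinarith [sq_nonneg (A - l ^ 2 * B)]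
    exact (abs_le_of_sq_le_sq' h3 h2).2
  nlinarith

section key

variable {U : P3} {ξ η z : ℂ}

/-- Along the direction `(1,0,0)` the logarithmic derivative has nonnegative real part. -/
theorem re_xi (hU : ∀ v ∈ Om, eval v U ≠ 0) (ha : 0 ≤ ξ.re) (hb : 0 ≤ η.re)
    (hz : z.re ^ 2 ≤ ξ.re * η.re) :
    0 ≤ (D1 U ξ η z 1 0 0 / eval (pt ξ η z) U).re := by
  rw [← line_deriv_zero, ← line_eval_zero U ξ η z 1 0 0]
  apply re_logDeriv_nonneg
  intro t ht
  rw [line_eval]
  apply hU
  apply pt_mem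
  · simp only [one_mul, Complex.add_re]; linarith
  · simpa using hb
  · simp only [one_mul, Complex.add_re, zero_mul, add_zero]
    nlinarith

theorem re_nu (hU : ∀ v ∈ Om, eval v U ≠ 0) (ha : 0 ≤ ξ.re) (hb : 0 ≤ η.re)
    (hz : z.re ^ 2 ≤ ξ.re * η.re) (l : ℝ) :
    0 ≤ (D1 U ξ η z ((l : ℂ) ^ 2) 1 l / eval (pt ξ η z) U).re := by
  rw [← line_deriv_zero, ← line_eval_zero U ξ η z ((l : ℂ) ^ 2) 1 l]
  apply re_logDeriv_nonneg
  intro t ht
  rw [line_eval]
  apply hU
  have e1 : (ξ + (l : ℂ) ^ 2 * t).re = ξ.re + l ^ 2 * t.re := by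
    rw [← Complex.ofReal_pow, Complex.add_re, Complex.re_ofReal_mul]
  have e2 : (η + 1 * t).re = η.re + t.re := by simp
  have e3 : (z + (l : ℂ) * t).re = z.re + l * t.re := by
    rw [Complex.add_re, Complex.re_ofReal_mul]
  apply pt_mem
  · rw [e1]; positivity
  · rw [e2]; positivity
  · rw [e1, e2, e3]; exact cone_step ha hb hz ht

theorem imag_line (ha : 0 ≤ ξ.re) (hb : 0 ≤ η.re)
    (hz : z.re ^ 2 ≤ ξ.re * η.re) (a b d : ℝ) (t : ℂ) (ht : t.re = 0) :
    pt (ξ + a * t) (η + b * t) (z + d * t) ∈ Om := by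
  have e : ∀ (w : ℂ) (c : ℝ), (w + c * t).re = w.re := by
    intro w c
    rw [Complex.add_re, Complex.re_ofReal_mul, ht]; ring
  apply pt_mem <;> simp only [e] <;> assumption

theorem im_zero (h0 : eval (pt ξ η z) U ≠ 0) (ha : 0 ≤ ξ.re) (hb : 0 ≤ η.re)
    (hz : z.re ^ 2 ≤ ξ.re * η.re)
    (hmin : ∀ v ∈ Om, ‖eval (pt ξ η z) U‖ ≤ ‖eval v U‖) (a b d : ℝ) :
    (D1 U ξ η z a b d / eval (pt ξ η z) U).im = 0 := by
  have key : ∀ ω : ℂ, ω.re = 0 → 0 ≤ (ω * (D1 U ξ η z a b d / eval (pt ξ η z) U)).re := by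
    intro ω hω
    rw [← mul_div_assoc, ← line_deriv_zero, ← line_eval_zero U ξ η z a b d]
    apply first_order
    · rwa [line_eval_zero]
    · intro t _
      rw [line_eval_zero, line_eval]
      apply hmin
      apply imag_line ha hb hz
      simp [hω]
  have h1 := key Complex.I (by simp)
  have h2 := key (-Complex.I) (by simp)
  simp only [Complex.mul_re, Complex.I_re, Complex.I_im, Complex.neg_re, Complex.neg_im] at h1 h2
  linarith

theorem re_Q (h0 : eval (pt ξ η z) U ≠ 0) (ha : 0 ≤ ξ.re) (hb : 0 ≤ η.re)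
    (hz : z.re ^ 2 ≤ ξ.re * η.re)
    (hmin : ∀ v ∈ Om, ‖eval (pt ξ η z) U‖ ≤ ‖eval v U‖) :
    0 ≤ (eval (pt ξ η z) (pderiv 2 U) / eval (pt ξ η z) U).re := by
  set γ : Fin 3 → Polynomial ℂ :=
    ![Polynomial.C ξ, Polynomial.C η, Polynomial.C (ξ * η - z ^ 2) + Polynomial.X] with hγ
  have e0 : (fun i => (γ i).eval 0) = pt ξ η z := by
    funext i
    fin_cases i <;> simp [hγ, pt]
  have e1 : (aeval γ U).eval 0 = eval (pt ξ η z) U := by rw [eval_aeval, e0]
  have e2 : (Polynomial.derivative (aeval γ U)).eval 0 = eval (pt ξ η z) (pderiv 2 U) := by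
    rw [deriv_aeval, Fin.sum_univ_three]
    simp only [Polynomial.eval_add, Polynomial.eval_mul, eval_aeval, e0]
    simp [hγ, -map_sub]
  have := first_order (aeval γ U) 1 (by rwa [e1]) (by
    intro t ht
    rw [e1, eval_aeval]
    apply hmin
    have hm := pt_mem ha hb hz
    refine ⟨by simpa [hγ] using ha, by simpa [hγ] using hb, ?_⟩
    have h3 := hm.2.2
    have e3 : pt ξ η z 2 - pt ξ η z 0 * pt ξ η z 1 = -z ^ 2 := by simp [pt]
    have e4 : (γ 2).eval ((t : ℂ) * 1) - (γ 0).eval ((t : ℂ) * 1) * (γ 1).eval ((t : ℂ) * 1)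
        = -z ^ 2 + t := by
      simp [hγ]; ring
    have e5 : (γ 0).eval ((t : ℂ) * 1) = ξ := by simp [hγ]
    have e6 : (γ 1).eval ((t : ℂ) * 1) = η := by simp [hγ]
    rw [e3] at h3
    simp only [pt, Matrix.cons_val_zero, Matrix.cons_val_one] at h3
    beta_reduce
    rw [e4, e5, e6]
    have h4 := norm_add_le (-z ^ 2) (t : ℂ)
    rw [Complex.norm_real, Real.norm_eq_abs, abs_of_pos ht] at h4
    rw [Complex.add_re, Complex.ofReal_re]
    linarith)
  rwa [one_mul, e1, e2] at this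

/-- The derivative along `(1,0,0)` as a polynomial. -/
noncomputable def dxi (U : P3) : P3 := pderiv 0 U + X 1 * pderiv 2 U

theorem eval_dxi (U : P3) (ξ η z : ℂ) : eval (pt ξ η z) (dxi U) = D1 U ξ η z 1 0 0 := by
  simp [dxi, D1, pt]

theorem re_mixed (hU : ∀ v ∈ Om, eval v U ≠ 0) (ha : 0 ≤ ξ.re) (hb : 0 ≤ η.re)
    (hz : z.re ^ 2 ≤ ξ.re * η.re)
    (him : (D1 U ξ η z 1 0 0 / eval (pt ξ η z) U).im = 0) (l : ℝ) :
    0 ≤ (D1 (dxi U) ξ η z ((l : ℂ) ^ 2) 1 l / eval (pt ξ η z) U).re := by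
  have h0 := hU _ (pt_mem ha hb hz)
  set u := eval (pt ξ η z) U with hu
  set c := D1 U ξ η z 1 0 0 / u with hc
  set c' := D1 U ξ η z ((l : ℂ) ^ 2) 1 l / u with hc'
  set Z := D1 (dxi U) ξ η z ((l : ℂ) ^ 2) 1 l / u with hZ
  have hc0 : 0 ≤ c.re := re_xi hU ha hb hz
  have key : ∀ w : ℝ, 0 < w → 0 ≤ c'.re + w * Z.re := by
    intro w hw
    have hUw : ∀ v ∈ Om, eval v (U + C (w : ℂ) * dxi U) ≠ 0 := by
      intro v hv
      obtain ⟨a, b, y, rfl, ha', hb', hy⟩ := exists_pt hv
      have h1 := re_xi hU ha' hb' hy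
      have h2 := hU _ hv
      rw [map_add, map_mul, eval_C, eval_dxi]
      intro h3
      have h4 : (1 : ℂ) + w * (D1 U a b y 1 0 0 / eval (pt a b y) U) = 0 := by
        field_simp
        rw [h3, mul_zero]
      have h5 := congrArg Complex.re h4
      rw [Complex.add_re, Complex.re_ofReal_mul, Complex.one_re, Complex.zero_re] at h5
      nlinarith
    have h1 := re_nu hUw ha hb hz l
    have e1 : D1 (U + C (w : ℂ) * dxi U) ξ η z ((l : ℂ) ^ 2) 1 l = u * (c' + w * Z) := by
      rw [hc', hZ]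
      simp only [D1, map_add, pderiv_C_mul, map_mul, eval_C]
      field_simp
      ring
    have hcre : c = (c.re : ℂ) := Complex.ext (by simp) (by simp [him])
    have e2 : eval (pt ξ η z) (U + C (w : ℂ) * dxi U) = u * ((1 + w * c.re : ℝ) : ℂ) := by
      rw [map_add, map_mul, eval_C, eval_dxi]
      push_cast
      rw [← hcre, hc]
      field_simp
      rfl
    rw [e1, e2, mul_div_mul_left _ _ h0, Complex.div_ofReal_re, Complex.add_re,
      Complex.re_ofReal_mul] at h1
    have hpos : 0 < 1 + w * c.re := by positivity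
    by_contra hneg
    push Not at hneg
    have := div_neg_of_neg_of_pos hneg hpos
    linarith
  by_contra hneg
  push Not at hneg
  have h1 := key ((|c'.re| + 1) / (-Z.re)) (div_pos (by positivity) (by linarith))
  have e : (|c'.re| + 1) / (-Z.re) * Z.re = -(|c'.re| + 1) := by
    have : Z.re ≠ 0 := hneg.ne
    field_simp
  rw [e] at h1
  have := le_abs_self c'.re
  linarith

theorem key_point (θ : ℕ) (hθ : 2 ≤ θ) (hU : ∀ v ∈ Om, eval v U ≠ 0) {v₀ : Fin 3 → ℂ}
    (hv₀ : v₀ ∈ Om) (hmin : ∀ v ∈ Om, ‖eval v₀ U‖ ≤ ‖eval v U‖) :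
    0 ≤ (eval v₀ (gen θ U) / eval v₀ U).re := by
  obtain ⟨ξ, η, z, rfl, ha, hb, hz⟩ := exists_pt hv₀
  have h0 := hU _ hv₀
  set u := eval (pt ξ η z) U with hu
  have him := im_zero h0 ha hb hz hmin
  have hx : (D1 U ξ η z 1 0 0 / u).im = 0 := by simpa using him 1 0 0
  have hy : (D1 U ξ η z 0 1 0 / u).im = 0 := by simpa using him 0 1 0
  have hw : (D1 U ξ η z 0 0 1 / u).im = 0 := by simpa using him 0 0 1
  have lin : ∀ a b d : ℂ, D1 U ξ η z a b d / u = a * (D1 U ξ η z 1 0 0 / u)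
      + b * (D1 U ξ η z 0 1 0 / u) + d * (D1 U ξ η z 0 0 1 / u) := by
    intro a b d
    simp only [D1]
    ring
  set cx := D1 U ξ η z 1 0 0 / u with hcx
  set cy := D1 U ξ η z 0 1 0 / u with hcy
  set cz := D1 U ξ η z 0 0 1 / u with hcz
  have hex : ∃ l : ℝ, l * cx.re + cz.re / 2 = 0 := by
    by_cases h : cx.re = 0
    · refine ⟨0, ?_⟩
      have h1 : ∀ l : ℝ, 0 ≤ cy.re + l * cz.re := by
        intro l
        have := re_nu hU ha hb hz l
        rw [lin, ← Complex.ofReal_pow, Complex.add_re, Complex.add_re, Complex.re_ofReal_mul,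
          Complex.re_ofReal_mul, one_mul, h] at this
        linarith
      by_contra h2
      have h3 : cz.re ≠ 0 := by
        intro h3; apply h2; rw [h3]; simp
      have h4 := h1 (-(|cy.re| + 1) / cz.re)
      have e : -(|cy.re| + 1) / cz.re * cz.re = -(|cy.re| + 1) := by field_simp
      rw [e] at h4
      have := le_abs_self cy.re
      linarith
    · exact ⟨-(cz.re / 2) / cx.re, by field_simp; ring⟩
  obtain ⟨l, hl⟩ := hex
  have he : D1 U ξ η z l 0 ((1 / 2 : ℝ) : ℂ) = 0 := by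
    have h1 : D1 U ξ η z l 0 ((1 / 2 : ℝ) : ℂ) / u = 0 := by
      rw [lin]
      apply Complex.ext
      · simp only [Complex.add_re, Complex.re_ofReal_mul, zero_mul, Complex.zero_re]
        linarith
      · simp only [Complex.add_im, Complex.im_ofReal_mul, zero_mul, Complex.zero_im, hx, hw]
        ring
    exact (div_eq_zero_iff.1 h1).resolve_right h0
  have h2 := second_order (aeval (crv ξ η z l 0 ((1 / 2 : ℝ) : ℂ)) U) Complex.I
    (by rwa [line_eval_zero]) (by rwa [line_deriv_zero]) (by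
      intro t _
      rw [line_eval_zero, line_eval]
      apply hmin
      have := imag_line ha hb hz l 0 (1 / 2) (t * Complex.I) (by simp)
      simpa using this)
  rw [line_deriv2_zero, line_eval_zero, Complex.I_sq] at h2
  have h3 := re_mixed hU ha hb hz hx l
  have h4 := re_Q h0 ha hb hz hmin
  have hθ' : (0 : ℝ) ≤ (θ : ℝ) - 3 / 2 := by
    have : (2 : ℝ) ≤ θ := by exact_mod_cast hθ
    linarith
  have h5 : 0 ≤ ((((θ : ℝ) - 3 / 2 : ℝ) : ℂ) * (eval (pt ξ η z) (pderiv 2 U) / u)).re := by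
    rw [Complex.re_ofReal_mul]; positivity
  have hsum := add_nonneg (add_nonneg h2 h3) h5
  rw [← Complex.add_re, ← Complex.add_re] at hsum
  refine le_of_le_of_eq hsum ?_
  congr 1
  have c10 := pderiv_comm' 1 0 U
  have c20 := pderiv_comm' 2 0 U
  have c21 := pderiv_comm' 2 1 U
  have x0 : eval (pt ξ η z) (X 0 : P3) = ξ := by simp [pt]
  have x1 : eval (pt ξ η z) (X 1 : P3) = η := by simp [pt]
  have x2 : eval (pt ξ η z) (X 2 : P3) = ξ * η - z ^ 2 := by simp [pt]
  have p01 : pderiv 0 (X 1 : P3) = 0 := pderiv_X_of_ne (by decide)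
  have p21 : pderiv 2 (X 1 : P3) = 0 := pderiv_X_of_ne (by decide)
  have p11 : pderiv 1 (X 1 : P3) = 1 := pderiv_X_self 1
  simp only [gen_apply, D1, dxi, map_add, pderiv_mul, map_mul, eval_C, x0, x1, x2, p01, p21, p11,
    c10, c20, c21, map_zero, map_one, ← hu]
  push_cast
  field_simp
  ring

end key

end Pool.Agent.Lib.MP_675d17_an
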