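import Mathlib

set_option autoImplicit false

namespace Pool.Agent.Lib.MP_675d17_an

open MvPowerSeries Finset

section Loop

variable {κ : Type} [Fintype κ] [DecidableEq κ]

/-- the constant exponent vector -/
noncomputable def cst (κ : Type) [Fintype κ] (N : ℕ) : κ →₀ ℕ :=
  Finsupp.equivFunOnFinite.symm (fun _ => N)

omit [DecidableEq κ] in
@[simp] theorem cst_apply (N : ℕ) (l : κ) : cst κ N l = N := rfl

/-- the diagonal coefficient -/
noncomputable def LL (N : ℕ) : MvPowerSeries κ ℂ →ₗ[ℂ] ℂ := coeff (cst κ N)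

omit [DecidableEq κ] in
theorem LL_rename (N : ℕ) (σ : Equiv.Perm κ) (F : MvPowerSeries κ ℂ) :
    LL N (rename σ F) = LL N F := by
  have h := coeff_embDomain_rename σ.toEmbedding F (cst κ N)
  have e : Finsupp.embDomain σ.toEmbedding (cst κ N) = cst κ N := by
    ext l
    obtain ⟨l, rfl⟩ := σ.surjective l
    exact Finsupp.embDomain_apply_self σ.toEmbedding (cst κ N) l
  rw [e] at h
  exact h

theorem LL_euler (N : ℕ) (j : κ) (F : MvPowerSeries κ ℂ) :
    LL N (X j * pderiv ℂ j F) = N * LL N F := by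
  unfold LL
  rw [X_def, coeff_monomial_mul]
  rcases Nat.eq_zero_or_pos N with rfl | hN
  · rw [if_neg]
    · simp
    · intro h
      have := h j
      simp at this
  · have hle : Finsupp.single j 1 ≤ cst κ N := by
      intro l
      rw [Finsupp.single_apply]
      split_ifs
      · exact hN
      · exact Nat.zero_le _
    rw [if_pos hle, coeff_pderiv, tsub_add_cancel_of_le hle, one_mul, mul_comm]
    congr 1
    simp [Nat.cast_sub hN]

theorem LL_shift (N : ℕ) (F : MvPowerSeries κ ℂ) :
    LL (N + 1) ((∏ l, X l) * F) = LL N F := by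
  have e : (∏ l, X l : MvPowerSeries κ ℂ) = monomial (cst κ 1) 1 := by
    have h1 : ∀ s : Finset κ, (∏ l ∈ s, X l : MvPowerSeries κ ℂ)
        = monomial (∑ l ∈ s, Finsupp.single l 1) 1 := by
      intro s
      induction s using Finset.induction_on with
      | empty => simp
      | insert a s ha ih =>
        rw [prod_insert ha, sum_insert ha, ih, X_def, monomial_mul_monomial, one_mul]
    rw [h1]
    congr 2
    ext l
    simp [Finsupp.finsetSum_apply, Finsupp.single_apply]
  have e2 : cst κ (N + 1) = cst κ 1 + cst κ N := by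
    ext l; simp [add_comm]
  unfold LL
  rw [e, e2, coeff_add_monomial_mul, one_mul]

/-- geometric series in the slot `l` -/
noncomputable def GG (x : ℂ) (l : κ) : MvPowerSeries κ ℂ := (1 - C x * X l)⁻¹

omit [Fintype κ] [DecidableEq κ] in
theorem GG_mul (x : ℂ) (l : κ) : GG x l * (1 - C x * X l) = 1 := by
  unfold GG
  apply MvPowerSeries.inv_mul_cancel
  simp

/-- the geometric series without its constant term -/
noncomputable def et (x : ℂ) (l : κ) : MvPowerSeries κ ℂ := C x * X l * GG x l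

omit [Fintype κ] [DecidableEq κ] in
theorem GG_eq (x : ℂ) (l : κ) : GG x l = 1 + et x l := by
  unfold et
  linear_combination GG_mul x l

omit [Fintype κ] [DecidableEq κ] in
theorem rename_GG (σ : Equiv.Perm κ) (x : ℂ) (l : κ) : rename σ (GG x l) = GG x (σ l) := by
  have h := congrArg (rename (R := ℂ) σ) (GG_mul x l)
  simp only [map_mul, map_sub, map_one, rename_C, rename_X] at h
  have h2 := GG_mul x (σ l)
  linear_combination (GG x (σ l)) * h - (rename σ (GG x l)) * h2

omit [Fintype κ] [DecidableEq κ] in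
theorem rename_et (σ : Equiv.Perm κ) (x : ℂ) (l : κ) : rename σ (et x l) = et x (σ l) := by
  simp only [et, map_mul, rename_C, rename_X, rename_GG]

omit [Fintype κ] [DecidableEq κ] in
theorem pderiv_GG (j : κ) (x : ℂ) (l : κ) :
    pderiv ℂ j (GG x l) = C x * GG x l ^ 2 * pderiv ℂ j (X l) := by
  have h := congrArg (pderiv ℂ j) (GG_mul x l)
  simp only [Derivation.leibniz, map_sub, pderiv_one, pderiv_C, smul_eq_mul] at h
  have h2 := GG_mul x l
  linear_combination (GG x l) * h - (pderiv ℂ j (GG x l)) * h2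

omit [Fintype κ] [DecidableEq κ] in
theorem pderiv_GG_ne {j l : κ} (h : l ≠ j) (x : ℂ) : pderiv ℂ j (GG x l) = 0 := by
  rw [pderiv_GG, pderiv_X_of_ne h, mul_zero]

omit [Fintype κ] [DecidableEq κ] in
theorem pderiv_et_ne {j l : κ} (h : l ≠ j) (x : ℂ) : pderiv ℂ j (et x l) = 0 := by
  have := pderiv_GG_ne h x
  rwa [GG_eq, map_add, pderiv_one, zero_add] at this

omit [Fintype κ] [DecidableEq κ] in
theorem euler_GG (j : κ) (x : ℂ) : X j * pderiv ℂ j (GG x j) = et x j * GG x j := by
  rw [pderiv_GG, pderiv_X_self, et]; ring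

theorem deriv_prod {A α : Type} [CommRing A] [Algebra ℂ A] [DecidableEq α] (D : Derivation ℂ A A)
    (s : Finset α) (f : α → A) :
    D (∏ a ∈ s, f a) = ∑ a ∈ s, (∏ b ∈ s.erase a, f b) * D (f a) := by
  induction s using Finset.induction_on with
  | empty => simp
  | insert a s ha ih =>
    rw [prod_insert ha, sum_insert ha, Derivation.leibniz, ih, erase_insert ha, smul_eq_mul,
      smul_eq_mul, add_comm, mul_sum]
    congr 1
    apply sum_congr rfl
    intro b hb
    have hab : a ≠ b := by rintro rfl; exact ha hb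
    rw [erase_insert_of_ne hab, prod_insert (by simp [ha]), mul_assoc]

theorem deriv_prod_log {A α : Type} [CommRing A] [Algebra ℂ A] [DecidableEq α]
    (D : Derivation ℂ A A) (u : A)
    (s : Finset α) (f g : α → A) (h : ∀ a ∈ s, u * D (f a) = g a * f a) :
    u * D (∏ a ∈ s, f a) = (∑ a ∈ s, g a) * ∏ a ∈ s, f a := by
  rw [deriv_prod, mul_sum, sum_mul]
  apply sum_congr rfl
  intro a ha
  rw [← mul_prod_erase s f ha, mul_left_comm, h a ha]
  ring

theorem deriv_prod_zero {A α : Type} [CommRing A] [Algebra ℂ A] [DecidableEq α]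
    (D : Derivation ℂ A A)
    (s : Finset α) (f : α → A) (h : ∀ a ∈ s, D (f a) = 0) : D (∏ a ∈ s, f a) = 0 := by
  rw [deriv_prod]
  apply sum_eq_zero
  intro a ha
  rw [h a ha, mul_zero]

/-- the product of all differences of two distinct variables -/
noncomputable def VV (κ : Type) [Fintype κ] [DecidableEq κ] : MvPowerSeries κ ℂ :=
  ∏ a, ∏ b ∈ ({a} : Finset κ)ᶜ, (X b - X a)

noncomputable def RR (j : κ) : MvPowerSeries κ ℂ :=
  ∏ a ∈ univ.erase j, ∏ b ∈ (({a} : Finset κ)ᶜ).erase j, (X b - X a)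

noncomputable def VP (j l : κ) : MvPowerSeries κ ℂ :=
  (∏ a ∈ (univ.erase j).erase l, (-(X j - X a) ^ 2)) * RR j

theorem VV_eq (j : κ) : VV κ = (∏ a ∈ univ.erase j, (-(X j - X a) ^ 2)) * RR j := by
  unfold VV RR
  rw [← mul_prod_erase univ _ (mem_univ j), ← prod_mul_distrib]
  have e : ({j} : Finset κ)ᶜ = univ.erase j := by ext a; simp
  rw [e, ← prod_mul_distrib]
  apply prod_congr rfl
  intro a ha
  have hj : j ∈ ({a} : Finset κ)ᶜ := by
    simp only [mem_compl, mem_singleton]
    exact fun h => (mem_erase.1 ha).1 h.symm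
  rw [← mul_prod_erase _ _ hj]
  ring

theorem VV_eq_VP {j l : κ} (h : l ≠ j) : VV κ = -(X j - X l) ^ 2 * VP j l := by
  rw [VV_eq j, VP, ← mul_assoc, mul_prod_erase (univ.erase j) (fun a => -(X j - X a) ^ 2)]
  simp [h]

theorem pderiv_RR (j : κ) : pderiv ℂ j (RR j) = 0 := by
  unfold RR
  apply deriv_prod_zero
  intro a ha
  apply deriv_prod_zero
  intro b hb
  rw [map_sub, pderiv_X_of_ne (mem_erase.1 ha).1, pderiv_X_of_ne (mem_erase.1 hb).1, sub_zero]

theorem pderiv_VV (j : κ) :
    pderiv ℂ j (VV κ) = ∑ l ∈ univ.erase j, 2 * (X l - X j) * VP j l := by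
  rw [VV_eq j, Derivation.leibniz, pderiv_RR, deriv_prod]
  simp only [smul_eq_mul, mul_zero, zero_add, mul_sum]
  apply sum_congr rfl
  intro l hl
  rw [map_neg, pderiv_pow, map_sub, pderiv_X_self, pderiv_X_of_ne (mem_erase.1 hl).1, VP]
  push_cast
  ring

theorem rename_VV (σ : Equiv.Perm κ) : rename σ (VV κ) = VV κ := by
  unfold VV
  simp only [map_prod, map_sub, rename_X]
  apply Fintype.prod_equiv σ
  intro a
  apply prod_equiv σ
  · intro b; simp
  · intro b _; rfl

theorem rename_VP {j l : κ} (h : l ≠ j) : rename (Equiv.swap j l) (VP j l) = VP j l := by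
  have h1 := rename_VV (Equiv.swap j l)
  rw [VV_eq_VP h] at h1
  simp only [map_mul, map_neg, map_pow, map_sub, rename_X, Equiv.swap_apply_left,
    Equiv.swap_apply_right] at h1
  have h2 : (X j - X l : MvPowerSeries κ ℂ) ≠ 0 := by
    intro h3
    have := congrArg (pderiv ℂ j) h3
    rw [map_sub, pderiv_X_self, pderiv_X_of_ne h] at this
    simp at this
  apply mul_left_cancel₀ (neg_ne_zero.2 (pow_ne_zero 2 h2))
  rw [← h1]
  ring

theorem pair_free (N : ℕ) {j l : κ} (U : MvPowerSeries κ ℂ)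
    (hU : rename (Equiv.swap j l) U = U) :
    LL N (X j * (2 * (X l - X j)) * U) = LL N (-(X j - X l) ^ 2 * U) := by
  have h1 := LL_rename N (Equiv.swap j l) (X j * (X l - X j) * U)
  simp only [map_mul, map_sub, rename_X, Equiv.swap_apply_left, Equiv.swap_apply_right, hU] at h1
  have e1 : X j * (2 * (X l - X j)) * U = X j * (X l - X j) * U + X j * (X l - X j) * U := by ring
  have e2 : -(X j - X l) ^ 2 * U = X l * (X j - X l) * U + X j * (X l - X j) * U := by ring
  rw [e1, e2, map_add, map_add, h1]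

theorem pair_occ (N : ℕ) {j l : κ} (x : ℂ) (U : MvPowerSeries κ ℂ)
    (hU : rename (Equiv.swap j l) U = U) :
    LL N (X j * (2 * (X l - X j)) * (et x l * U))
      = - LL N (-(X j - X l) ^ 2 * (et x j * et x l * U)) := by
  have h1 := LL_rename N (Equiv.swap j l) (X j * (X l - X j) * (et x l * U))
  simp only [map_mul, map_sub, rename_X, rename_et, Equiv.swap_apply_left,
    Equiv.swap_apply_right, hU] at h1
  have e1 : X j * (2 * (X l - X j)) * (et x l * U)
      = X j * (X l - X j) * (et x l * U) + X j * (X l - X j) * (et x l * U) := by ring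
  have e2 : -(-(X j - X l) ^ 2 * (et x j * et x l * U))
      = X l * (X j - X l) * (et x j * U) + X j * (X l - X j) * (et x l * U) := by
    have g1 := GG_mul x j
    have g2 := GG_mul x l
    unfold et
    linear_combination (C x * X j * X l * (X j - X l) * U * GG x j) * g2
      - (C x * X j * X l * (X j - X l) * U * GG x l) * g1
  rw [← map_neg, e1, e2, map_add, map_add, h1]

variable {ι : Type} [Fintype ι] [DecidableEq ι]

/-- the product of all geometric series in all slots -/
noncomputable def HH (κ : Type) [Fintype κ] (x : ι → ℂ) : MvPowerSeries κ ℂ :=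
  ∏ l, ∏ i, GG (x i) l

omit [DecidableEq κ] [DecidableEq ι] in
theorem rename_HH (σ : Equiv.Perm κ) (x : ι → ℂ) : rename σ (HH κ x) = HH κ x := by
  unfold HH
  simp only [map_prod, rename_GG]
  exact Equiv.prod_comp σ (fun l => ∏ i, GG (x i) l)

theorem euler_HH (j : κ) (x : ι → ℂ) :
    X j * pderiv ℂ j (HH κ x) = (∑ i, et (x i) j) * HH κ x := by
  unfold HH
  rw [← mul_prod_erase univ _ (mem_univ j), Derivation.leibniz,
    deriv_prod_zero (pderiv ℂ j) (univ.erase j)]
  · rw [smul_zero, zero_add, smul_eq_mul, mul_left_comm,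
      deriv_prod_log (pderiv ℂ j) (X j) univ (fun i => GG (x i) j) (fun i => et (x i) j)
        (fun i _ => euler_GG j (x i))]
    ring
  · intro l hl
    apply deriv_prod_zero
    intro i _
    exact pderiv_GG_ne (mem_erase.1 hl).1 _

/-- the insertions in the slots of `D` -/
noncomputable def FF (x : ι → ℂ) (D : Finset κ) (ψ : κ → ι) : MvPowerSeries κ ℂ :=
  ∏ l ∈ D, et (x (ψ l)) l

noncomputable def PP (x : ι → ℂ) (N : ℕ) (D : Finset κ) (ψ : κ → ι) : ℂ :=
  LL N (VV κ * HH κ x * FF x D ψ)

omit [Fintype κ] [Fintype ι] [DecidableEq ι] in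
theorem rename_FF {j l : κ} (x : ι → ℂ) (D : Finset κ) (ψ : κ → ι) (hj : j ∉ D) (hl : l ∉ D) :
    rename (Equiv.swap j l) (FF x D ψ) = FF x D ψ := by
  unfold FF
  simp only [map_prod, rename_et]
  apply prod_congr rfl
  intro a ha
  rw [Equiv.swap_apply_of_ne_of_ne]
  · rintro rfl; exact hj ha
  · rintro rfl; exact hl ha

omit [Fintype κ] [Fintype ι] [DecidableEq ι] in
theorem FF_insert (x : ι → ℂ) (D : Finset κ) (ψ : κ → ι) {j : κ} (hj : j ∉ D) (i : ι) :
    FF x (insert j D) (Function.update ψ j i) = et (x i) j * FF x D ψ := by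
  unfold FF
  rw [prod_insert hj, Function.update_self]
  congr 1
  apply prod_congr rfl
  intro a ha
  rw [Function.update_of_ne]
  rintro rfl; exact hj ha

theorem loop (x : ι → ℂ) (N : ℕ) (D : Finset κ) (ψ : κ → ι) (hψ : Set.InjOn ψ D) {j : κ}
    (hj : j ∉ D) :
    ∑ i ∈ (D.image ψ)ᶜ, PP x N (insert j D) (Function.update ψ j i)
      = ((N : ℂ) + 1 + D.card - Fintype.card κ) * PP x N D ψ := by
  have h1 := LL_euler N j (VV κ * HH κ x * FF x D ψ)
  have hF : pderiv ℂ j (FF x D ψ) = 0 := by
    apply deriv_prod_zero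
    intro l hl
    apply pderiv_et_ne
    rintro rfl; exact hj hl
  have e1 : X j * pderiv ℂ j (VV κ * HH κ x * FF x D ψ)
      = (∑ l ∈ univ.erase j, X j * (2 * (X l - X j)) * (VP j l * HH κ x * FF x D ψ))
        + ∑ i, VV κ * HH κ x * (et (x i) j * FF x D ψ) := by
    rw [Derivation.leibniz, hF, Derivation.leibniz, pderiv_VV]
    simp only [smul_eq_mul, mul_zero, zero_add]
    have := euler_HH j x
    rw [← mul_sum, ← sum_mul]
    have e : ∑ l ∈ univ.erase j, X j * (2 * (X l - X j)) * (VP j l * HH κ x * FF x D ψ)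
        = X j * (FF x D ψ * (HH κ x * ∑ l ∈ univ.erase j, 2 * (X l - X j) * VP j l)) := by
      simp only [mul_sum]
      apply sum_congr rfl
      intro l _
      ring
    rw [e]
    linear_combination (FF x D ψ * VV κ) * this
  have hsub : D ⊆ univ.erase j := by
    intro l hl
    simp only [mem_erase, mem_univ, and_true]
    rintro rfl; exact hj hl
  have e2 : ∑ l ∈ univ.erase j \ D,
      LL N (X j * (2 * (X l - X j)) * (VP j l * HH κ x * FF x D ψ))
      = ((Fintype.card κ : ℂ) - 1 - D.card) * PP x N D ψ := by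
    rw [sum_congr rfl (g := fun _ => PP x N D ψ), sum_const, card_sdiff_of_subset hsub,
      card_erase_of_mem (mem_univ j), card_univ, nsmul_eq_mul]
    · congr 1
      have h2 := card_le_card hsub
      rw [card_erase_of_mem (mem_univ j), card_univ] at h2
      have h3 : 1 ≤ Fintype.card κ := Fintype.card_pos_iff.2 ⟨j⟩
      rw [Nat.cast_sub h2, Nat.cast_sub h3, Nat.cast_one]
    · intro l hl
      rw [mem_sdiff, mem_erase] at hl
      rw [pair_free, PP, VV_eq_VP hl.1.1]
      · congr 1; ring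
      · rw [map_mul, map_mul, rename_VP hl.1.1, rename_HH, rename_FF x D ψ hj hl.2]
  have e3 : ∑ l ∈ D, LL N (X j * (2 * (X l - X j)) * (VP j l * HH κ x * FF x D ψ))
      = - ∑ i ∈ D.image ψ, LL N (VV κ * HH κ x * (et (x i) j * FF x D ψ)) := by
    rw [sum_image hψ, ← sum_neg_distrib]
    apply sum_congr rfl
    intro l hl
    have hlj : l ≠ j := by rintro rfl; exact hj hl
    have eF : FF x D ψ = et (x (ψ l)) l * FF x (D.erase l) ψ := by
      unfold FF
      rw [mul_prod_erase D (fun l => et (x (ψ l)) l) hl]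
    have := pair_occ N (j := j) (l := l) (x (ψ l)) (VP j l * HH κ x * FF x (D.erase l) ψ) (by
      rw [map_mul, map_mul, rename_VP hlj, rename_HH, rename_FF x _ ψ (by simp [hj]) (by simp)])
    rw [eF, VV_eq_VP hlj]
    have a1 : VP j l * HH κ x * (et (x (ψ l)) l * FF x (D.erase l) ψ)
        = et (x (ψ l)) l * (VP j l * HH κ x * FF x (D.erase l) ψ) := by ring
    rw [a1, this]
    congr 2
    ring
  rw [e1, map_add, map_sum, map_sum, ← sum_sdiff hsub, e2, e3,
    ← sum_add_sum_compl (D.image ψ)] at h1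
  simp only [PP, FF_insert x D ψ hj] at h1 ⊢
  linear_combination h1

omit [DecidableEq ι] in
theorem PP_full (x : ι → ℂ) (N : ℕ) (ψ : κ → ι) :
    PP x (N + 1) univ ψ = (∏ l, x (ψ l)) * ∑ D : Finset κ, PP x N D ψ := by
  have e : VV κ * HH κ x * FF x univ ψ
      = (∏ l, X l) * ((∏ l, x (ψ l)) • ∑ D : Finset κ, VV κ * HH κ x * FF x D ψ) := by
    have e1 : FF x univ ψ = C (∏ l, x (ψ l)) * (∏ l, X l) * ∑ D : Finset κ, FF x D ψ := by
      unfold FF
      rw [← powerset_univ, ← prod_one_add, map_prod, ← prod_mul_distrib, ← prod_mul_distrib]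
      apply prod_congr rfl
      intro l _
      rw [← GG_eq, et]
    rw [e1, ← mul_sum, smul_eq_C_mul]
    ring
  unfold PP
  rw [e, LL_shift, map_smul, map_sum, smul_eq_mul]

omit [DecidableEq ι] in
theorem PP_base (x : ι → ℂ) (N : ℕ) (hN : N + 1 = Fintype.card κ) (D : Finset κ) (ψ : κ → ι)
    (hD : D ≠ ∅) : PP x N D ψ = 0 := by
  unfold PP LL
  apply coeff_of_lt_order
  obtain ⟨l, hl⟩ := nonempty_iff_ne_empty.2 hD
  have h1 : (1 : ℕ∞) ≤ (FF x D ψ).order := by
    rw [one_le_order_iff_constCoeff_eq_zero, FF, map_prod]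
    apply prod_eq_zero hl
    simp [et]
  have h2 : ((Fintype.card κ * N : ℕ) : ℕ∞) ≤ (VV κ).order := by
    unfold VV
    refine le_trans ?_ (le_order_prod _ _)
    have : ∀ a : κ, (N : ℕ∞) ≤ (∏ b ∈ ({a} : Finset κ)ᶜ, (X b - X a : MvPowerSeries κ ℂ)).order := by
      intro a
      refine le_trans ?_ (le_order_prod _ _)
      have h3 : ∀ b ∈ ({a} : Finset κ)ᶜ, (1 : ℕ∞) ≤ (X b - X a : MvPowerSeries κ ℂ).order := by
        intro b _
        rw [one_le_order_iff_constCoeff_eq_zero]
        simp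
      refine le_trans ?_ (sum_le_sum h3)
      rw [sum_const, card_compl, card_singleton, ← hN]
      simp
    refine le_trans ?_ (sum_le_sum (fun a _ => this a))
    simp
  have h3 : Finsupp.degree (cst κ N) = Fintype.card κ * N := by
    rw [Finsupp.degree_eq_sum]
    simp
  rw [h3]
  refine lt_of_lt_of_le ?_ le_order_mul
  refine lt_of_lt_of_le ?_ (add_le_add le_order_mul h1)
  refine lt_of_lt_of_le ?_ (add_le_add (add_le_add h2 (zero_le)) le_rfl)
  rw [add_zero]
  exact_mod_cast Nat.lt_succ_self _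

end Loop

end Pool.Agent.Lib.MP_675d17_an
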