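import Pool.Agent.Lib.MP_675d17_an.Final

/-! Toeplitz minors with factorial weights. -/

set_option autoImplicit false

namespace Pool.Agent.Lib.MP_675d17_an

open Finset Polynomial

variable {ι : Type} [Fintype ι] [DecidableEq ι]

theorem sum_compl (F : Finset ι → ℂ) : ∑ S, F S = ∑ S, F Sᶜ :=
  (Equiv.sum_comp (Function.Involutive.toPerm compl compl_compl) F).symm

theorem Stable.compl {f : Finset ι → ℂ} (hf : Stable f) : Stable fun S => f Sᶜ := by
  intro y hy
  have h0 : ∀ i, y i ≠ 0 := fun i h => by simpa [h] using hy i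
  have h1 := hf (fun i => (y i)⁻¹) fun i => by
    rw [Complex.inv_re]
    exact div_pos (hy i) (Complex.normSq_pos.2 (h0 i))
  have e : ev (fun S => f Sᶜ) y = (∏ i, y i) * ev f fun i => (y i)⁻¹ := by
    unfold ev
    rw [mul_sum, sum_compl]
    refine sum_congr rfl fun S _ => ?_
    have := prod_ne_zero_iff.2 fun i (_ : i ∈ S) => h0 i
    beta_reduce
    rw [compl_compl, ← prod_mul_prod_compl S, prod_inv_distrib]
    field_simp
  rw [e]
  exact mul_ne_zero (prod_ne_zero_iff.2 fun i _ => h0 i) h1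

theorem W_card (θ : ℕ) (c : ℕ → ℂ) (f : Finset ι → ℂ) (T : Finset ι) :
    W θ (fun S => c S.card * f S) T = c T.card * W θ f T := by
  unfold W
  rw [mul_sum]
  refine sum_congr rfl fun S _ => ?_
  have g1 := card_sdiff_add_card_inter S T
  have g2 := card_sdiff_add_card_inter T S
  rw [inter_comm] at g2
  by_cases h : S.card = T.card
  · simp only [h]; ring
  · rw [val, if_neg (by omega)]
    simp

theorem W_compl (θ : ℕ) (f : Finset ι → ℂ) (T : Finset ι) :
    (θ.ascFactorial T.card : ℂ) * W θ (fun S => f Sᶜ) Tᶜ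
      = θ.ascFactorial (Fintype.card ι - T.card) * W θ f T := by
  unfold W
  rw [mul_sum, mul_sum, sum_compl]
  refine sum_congr rfl fun S _ => ?_
  have g1 := card_sdiff_add_card_inter T S
  have g2 := card_sdiff_add_card_inter Tᶜ Sᶜ
  rw [inter_comm] at g1 g2
  rw [compl_sdiff_compl] at g2
  beta_reduce
  rw [compl_compl, compl_sdiff_compl, compl_sdiff_compl, ← card_compl, ← g1, ← g2, val, val]
  by_cases h : (S \ T).card = (T \ S).card
  · rw [if_pos h, if_pos h.symm, ← Nat.ascFactorial_mul_ascFactorial,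
      ← Nat.ascFactorial_mul_ascFactorial, h]
    push_cast
    ring
  · rw [if_neg h, if_neg (Ne.symm h)]
    simp

theorem ZZ_univ (x : ι → ℂ) (hx : ∀ i, x i ≠ 0) (R : ℕ) : ZZ x R univ ≠ 0 := by
  have hp := prod_ne_zero_iff.2 fun i (_ : i ∈ univ) => hx i
  induction R with
  | zero => exact hp
  | succ R ih =>
    refine mul_ne_zero hp fun h => ?_
    have e := W_compl (R + 2) (ZZ x R) univ
    rw [h, mul_zero, compl_univ, W_empty, compl_empty] at e
    exact mul_ne_zero (asc_ne_zero (by omega) _) ih e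

/-- The weights that exchange a rising factorial for its mirror image. -/
noncomputable def cc (J : Finset ℕ) (n R k : ℕ) : ℂ := ∏ j ∈ Ico 1 (R + 1),
  if j ∈ J then ((j + 1).ascFactorial (n - k) : ℂ) / (j + 1).ascFactorial k else 1

theorem cc_ne (J : Finset ℕ) (n R k : ℕ) : cc J n R k ≠ 0 :=
  prod_ne_zero_iff.2 fun j _ => by
    split_ifs
    · exact div_ne_zero (asc_ne_zero (by omega) _) (asc_ne_zero (by omega) _)
    · exact one_ne_zero

theorem ZZ_stable' (J : Finset ℕ) (x : ι → ℝ) (hx : ∀ i, 0 < x i) (l : ℂ) (hl : 0 < l.re)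
    (R : ℕ) : Stable fun S => (l ^ S.card * cc J (Fintype.card ι) R S.card) *
      ZZ (fun i => (x i : ℂ)) R S := by
  have l0 : l ≠ 0 := fun h => by simp [h] at hl
  induction R with
  | zero => simpa [cc] using ZZ_stable x hx l hl 0
  | succ R ih =>
    have key : Stable fun T => (l ^ T.card * cc J (Fintype.card ι) (R + 1) T.card) *
        W (R + 2) (ZZ (fun i => (x i : ℂ)) R) T := by
      by_cases hJ : R + 1 ∈ J
      · have h := (W_stable (R + 2) (by omega) _ ih.compl (mul_ne_zero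
          (mul_ne_zero (pow_ne_zero _ l0) (cc_ne _ _ _ _))
          (compl_empty (α := ι) ▸ ZZ_univ _ (fun i => by exact_mod_cast (hx i).ne') R))).compl
        convert h using 2 with T
        apply mul_left_cancel₀ (asc_ne_zero (by omega : 1 ≤ R + 2) T.card)
        have := asc_ne_zero (by omega : 1 ≤ R + 2) T.card
        rw [W_compl (R + 2) fun S => (l ^ S.card * cc J (Fintype.card ι) R S.card) *
          ZZ (fun i => (x i : ℂ)) R S, W_card _ fun k => l ^ k * cc J (Fintype.card ι) R k, cc,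
          prod_Ico_succ_top (by omega), if_pos hJ, ← cc]
        field_simp
      · have h := W_stable (R + 2) (by omega) _ ih (by simp [ZZ_empty, cc_ne])
        convert h using 2 with T
        rw [W_card _ fun k => l ^ k * cc J (Fintype.card ι) R k, cc,
          prod_Ico_succ_top (by omega), if_neg hJ, mul_one, ← cc]
    intro y hy
    have h2 := key (fun i => x i * y i) fun i => by
      rw [Complex.re_ofReal_mul]; exact mul_pos (hx i) (hy i)
    convert h2 using 1
    unfold ev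
    refine sum_congr rfl fun S _ => ?_
    simp only [ZZ, prod_mul_distrib]
    ring

theorem mult_finset (K : Finset ℕ) (g : ℂ[X]) (h0 : g.eval 0 ≠ 0)
    (hg : ∀ t, Slit t → g.eval t ≠ 0) :
    ∃ G : ℂ[X], (∀ k, (∏ j ∈ K, ((j + 1).ascFactorial k : ℂ)) * G.coeff k = g.coeff k) ∧
      G.eval 0 ≠ 0 ∧ ∀ t, Slit t → G.eval t ≠ 0 := by
  induction K using Finset.induction_on with
  | empty => exact ⟨g, by simp, h0, hg⟩
  | insert j K hj ih =>
    obtain ⟨G, h1, h2, h3⟩ := ih
    refine ⟨mult (j + 1) G, fun k => ?_, ?_, mult_slit G h2 h3 (j + 1) (by omega)⟩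
    · rw [prod_insert hj, coeff_mult, mul_comm ((j + 1).ascFactorial k : ℂ), mul_assoc,
        mul_div_cancel₀ _ (asc_ne_zero (by omega) k), h1]
    · rw [← coeff_zero_eq_eval_zero] at h2 ⊢
      rw [coeff_mult]
      simpa using h2

theorem weighted (x : ι → ℝ) (hx : ∀ i, 0 < x i) (R : ℕ) {I J : Finset ℕ}
    (hI : I ⊆ Ico 1 (R + 1)) (hJ : J ⊆ Ico 1 (R + 1)) (hIJ : Disjoint I J) (z : ℂ)
    (hz : ∑ k ∈ range (Fintype.card ι + 1),
      (((∏ j ∈ I, (k + j).factorial) * ∏ j ∈ J, (Fintype.card ι - k + j).factorial : ℕ) : ℂ) *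
        JJ (Hs fun i => (x i : ℂ)) k (R + 1) * z ^ k = 0) : z.im = 0 ∧ z.re < 0 := by
  set n := Fintype.card ι with hn
  set g : ℂ[X] := ∑ S : Finset ι,
    monomial S.card (cc J n R S.card * ZZ (fun i => (x i : ℂ)) R S) with hg
  have hc : ∀ k, g.coeff k = cc J n R k *
      ∑ S : Finset ι, if S.card = k then ZZ (fun i => (x i : ℂ)) R S else 0 := fun k => by
    simp only [hg, finsetSum_coeff, coeff_monomial, mul_sum]
    refine sum_congr rfl fun S _ => ?_
    split_ifs with h
    · rw [h]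
    · rw [mul_zero]
  obtain ⟨G, h1, h2, h3⟩ := mult_finset (Ico 1 (R + 1) \ (I ∪ J)) g (by
      rw [← coeff_zero_eq_eval_zero, hc]
      simp [ZZ_empty, cc_ne]) (by
      intro t ht
      obtain ⟨l, hl, rfl⟩ := slit_sqrt ht
      convert ZZ_stable' J x hx l hl R (fun _ => l) (fun _ => hl) using 1
      simp only [hg, eval_finsetSum, eval_monomial, ev, prod_const]
      refine sum_congr rfl fun S _ => ?_
      ring)
  have hp : ∀ (K : Finset ℕ) (k : ℕ), (∏ j ∈ K, ((j + 1).ascFactorial k : ℂ)) ≠ 0 := fun K k =>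
    prod_ne_zero_iff.2 fun j _ => asc_ne_zero (by omega) k
  have hd : G.natDegree < n + 1 := Nat.lt_succ_of_le (natDegree_le_iff_coeff_eq_zero.2
    fun k hk => by
      apply mul_left_cancel₀ (hp (Ico 1 (R + 1) \ (I ∪ J)) k)
      rw [h1, hc, mul_zero, sum_eq_zero, mul_zero]
      exact fun S _ => if_neg (by have := card_le_univ S; omega))
  have hf : ∀ (K : Finset ℕ) (k : ℕ), ((∏ j ∈ K, (k + j).factorial : ℕ) : ℂ) =
      (∏ j ∈ K, (j.factorial : ℂ)) * ∏ j ∈ K, ((j + 1).ascFactorial k : ℂ) := fun K k => by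
    rw [← prod_mul_distrib, Nat.cast_prod]
    refine prod_congr rfl fun j _ => ?_
    rw [add_comm, ← Nat.factorial_mul_ascFactorial, Nat.cast_mul]
  have he : ((∏ j ∈ I, (j.factorial : ℂ)) * ∏ j ∈ J, (j.factorial : ℂ)) * G.eval z = 0 := by
    rw [← hz, eval_eq_sum_range' hd, mul_sum]
    refine sum_congr rfl fun k hk => ?_
    have e1 := h1 k
    have e2 : ∏ j ∈ range R, ((j + 2).ascFactorial k : ℂ) =
        (∏ j ∈ Ico 1 (R + 1) \ (I ∪ J), ((j + 1).ascFactorial k : ℂ)) *
          ((∏ j ∈ I, ((j + 1).ascFactorial k : ℂ)) * ∏ j ∈ J, ((j + 1).ascFactorial k : ℂ)) := by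
      rw [← prod_union hIJ, prod_sdiff (union_subset hI hJ), prod_Ico_eq_prod_range]
      exact prod_congr rfl fun j _ => by rw [add_comm 1 j]
    have e3 : cc J n R k * ∏ j ∈ J, ((j + 1).ascFactorial k : ℂ) =
        ∏ j ∈ J, ((j + 1).ascFactorial (n - k) : ℂ) := by
      rw [cc, prod_ite_mem, inter_eq_right.2 hJ, prod_div_distrib, div_mul_cancel₀ _ (hp _ _)]
    rw [hc, chain _ R k (Nat.lt_succ_iff.1 (mem_range.1 hk)), e2] at e1
    have e4 : G.coeff k = (∏ j ∈ I, ((j + 1).ascFactorial k : ℂ)) *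
        (∏ j ∈ J, ((j + 1).ascFactorial (n - k) : ℂ)) *
          JJ (Hs fun i => (x i : ℂ)) k (R + 1) := by
      apply mul_left_cancel₀ (hp (Ico 1 (R + 1) \ (I ∪ J)) k)
      rw [e1, ← e3]
      ring
    rw [e4, Nat.cast_mul, hf, hf]
    ring
  have hF : ∀ K : Finset ℕ, (∏ j ∈ K, (j.factorial : ℂ)) ≠ 0 := fun K =>
    prod_ne_zero_iff.2 fun j _ => by exact_mod_cast j.factorial_ne_zero
  have hz' := (mul_eq_zero.1 he).resolve_left (mul_ne_zero (hF _) (hF _))
  have hs : ¬ Slit z := fun h => h3 z h hz'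
  unfold Slit at hs
  push Not at hs
  refine ⟨hs.2, lt_of_le_of_ne hs.1 fun h => ?_⟩
  have : z = 0 := Complex.ext h hs.2
  exact h2 (this ▸ hz')

theorem schur_form (p : ℝ[X]) (hp : ∀ k ≤ p.natDegree, 0 < p.coeff k)
    (hr : p.roots.card = p.natDegree) (R : ℕ) {I J : Finset ℕ}
    (hI : I ⊆ Ico 1 (R + 1)) (hJ : J ⊆ Ico 1 (R + 1)) (hIJ : Disjoint I J) (z : ℂ)
    (hz : ∑ k ∈ range (p.natDegree + 1),
      (((∏ j ∈ I, (k + j).factorial) * ∏ j ∈ J, (p.natDegree - k + j).factorial : ℕ) : ℂ) *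
        JJ ((p.map (algebraMap ℝ ℂ) : ℂ[X]) : PowerSeries ℂ) (R + 1) k * z ^ k = 0) :
    z.im = 0 ∧ z.re < 0 := by
  obtain ⟨a, x, ha, hx, hfac⟩ := factor p hp hr
  have : DecidableEq p.roots.ToType := Classical.decEq _
  have hP : ((p.map (algebraMap ℝ ℂ) : ℂ[X]) : PowerSeries ℂ)
      = PowerSeries.C (a : ℂ) * ∏ i, (1 + PowerSeries.C (x i : ℂ) * PowerSeries.X) := by
    have := congrArg (fun u : ℝ[X] => Polynomial.coeToPowerSeries.ringHom (u.map (algebraMap ℝ ℂ)))
      hfac
    simp only [Polynomial.map_mul, Polynomial.map_prod, Polynomial.map_add, Polynomial.map_one,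
      map_C, map_X, map_mul, map_prod, map_add, map_one] at this
    simpa using this
  refine weighted x hx R hI hJ hIJ z ?_
  have ha' : (a : ℂ) ^ (R + 1) ≠ 0 := pow_ne_zero _ (by exact_mod_cast ha)
  apply mul_left_cancel₀ ha'
  rw [Multiset.card_coe, hr, mul_zero, ← hz, mul_sum]
  refine sum_congr rfl fun k _ => ?_
  rw [hP, JJ_C_mul, JJ_dual]
  ring

end Pool.Agent.Lib.MP_675d17_an
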